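import Mathlib

set_option autoImplicit false

namespace Pool.Agent.TH555.TwoGen

/-- The group of order automorphisms of the real line. -/
abbrev A := ℝ ≃o ℝ

/-- An order automorphism from a strictly monotone surjection. -/
noncomputable def mkA (f : ℝ → ℝ) (hf : StrictMono f) (hs : Function.Surjective f) : A :=
  StrictMono.orderIsoOfSurjective f hf hs

@[simp] lemma mkA_apply (f : ℝ → ℝ) (hf : StrictMono f) (hs : Function.Surjective f) (x : ℝ) :
    mkA f hf hs x = f x := rfl

@[simp] lemma mul_app (f g : A) (x : ℝ) : (f * g) x = f (g x) := rfl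

@[simp] lemma one_app (x : ℝ) : (1 : A) x = x := rfl

@[simp] lemma inv_app_self (f : A) (x : ℝ) : f⁻¹ (f x) = x := f.symm_apply_apply x

@[simp] lemma app_inv_self (f : A) (x : ℝ) : f (f⁻¹ x) = x := f.apply_symm_apply x

lemma ext' {f g : A} (h : ∀ x, f x = g x) : f = g := OrderIso.ext (funext h)

/-- `f` is the identity outside `S`. -/
def Supp (f : A) (S : Set ℝ) : Prop := ∀ x, x ∉ S → f x = x

lemma Supp.mono {f : A} {S T : Set ℝ} (h : Supp f S) (hST : S ⊆ T) : Supp f T :=
  fun x hx => h x (fun h' => hx (hST h'))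

lemma Supp.mem {f : A} {S : Set ℝ} (h : Supp f S) {x : ℝ} (hx : x ∈ S) : f x ∈ S := by
  by_contra hc
  have h1 := h _ hc
  have h2 : f x = x := f.injective h1
  rw [h2] at hc
  exact hc hx

lemma Supp.inv {f : A} {S : Set ℝ} (h : Supp f S) : Supp f⁻¹ S := by
  intro x hx
  have := h x hx
  conv_lhs => rw [← this]
  simp

lemma Supp.mul {f g : A} {S : Set ℝ} (hf : Supp f S) (hg : Supp g S) : Supp (f * g) S := by
  intro x hx
  rw [mul_app, hg x hx, hf x hx]

lemma Supp.commute {f g : A} {S T : Set ℝ} (hf : Supp f S) (hg : Supp g T) (h : Disjoint S T) :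
    Commute f g := by
  apply ext'
  intro x
  rw [Set.disjoint_left] at h
  simp only [mul_app]
  by_cases hx : x ∈ S
  · rw [hg x (h hx), hg _ (h (hf.mem hx))]
  · by_cases hx' : x ∈ T
    · rw [hf x hx, hf _ (fun h' => h h' (hg.mem hx'))]
    · rw [hf x hx, hg x hx', hf x hx]

/-- Conjugation moves the support. -/
lemma Supp.conj {f : A} {S : Set ℝ} (h : Supp f S) (c : A) :
    Supp (c * f * c⁻¹) {x | c⁻¹ x ∈ S} := by
  intro x hx
  simp only [mul_app]
  rw [h _ hx]
  simp

/-- Gluing a family of order automorphisms with disjoint supports. -/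
lemma glue {ι : Type*} (U : ι → Set ℝ) (hU : Pairwise (Function.onFun Disjoint U)) (g : ι → A)
    (hg : ∀ i, Supp (g i) (U i)) :
    ∃ G : A, (∀ i x, x ∈ U i → G x = g i x) ∧ (∀ x, (∀ i, x ∉ U i) → G x = x) := by
  classical
  let F : ℝ → ℝ := fun x => if h : ∃ i, x ∈ U i then g h.choose x else x
  have hF1 : ∀ i x, x ∈ U i → F x = g i x := by
    intro i x hx
    have h : ∃ i, x ∈ U i := ⟨i, hx⟩
    have : h.choose = i := by
      by_contra hne
      exact Set.disjoint_left.mp (hU hne) h.choose_spec hx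
    simp only [F, dif_pos h, this]
  have hF2 : ∀ x, (∀ i, x ∉ U i) → F x = x := by
    intro x hx
    have h : ¬ ∃ i, x ∈ U i := fun ⟨i, hi⟩ => hx i hi
    simp only [F, dif_neg h]
  have hmono : StrictMono F := by
    intro x y hxy
    by_cases hx : ∃ i, x ∈ U i
    · obtain ⟨i, hi⟩ := hx
      rw [hF1 i x hi]
      by_cases hy : ∃ j, y ∈ U j
      · obtain ⟨j, hj⟩ := hy
        rw [hF1 j y hj]
        by_cases hij : i = j
        · subst hij
          exact (g i).strictMono hxy
        · have hd := Set.disjoint_left.mp (hU hij)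
          have hyi : y ∉ U i := fun h => hd h hj
          have h1 : g i x < y := by
            have := (g i).strictMono hxy
            rwa [hg i y hyi] at this
          have h2 : g i x ∉ U j := hd ((hg i).mem hi)
          have h3 := (g j).strictMono h1
          rwa [hg j _ h2] at h3
      · push Not at hy
        rw [hF2 y hy]
        have := (g i).strictMono hxy
        rwa [hg i y (hy i)] at this
    · push Not at hx
      rw [hF2 x hx]
      by_cases hy : ∃ j, y ∈ U j
      · obtain ⟨j, hj⟩ := hy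
        rw [hF1 j y hj]
        have := (g j).strictMono hxy
        rwa [hg j x (hx j)] at this
      · push Not at hy
        rwa [hF2 y hy]
  have hsurj : Function.Surjective F := by
    intro y
    by_cases hy : ∃ j, y ∈ U j
    · obtain ⟨j, hj⟩ := hy
      refine ⟨(g j)⁻¹ y, ?_⟩
      rw [hF1 j _ ((hg j).inv.mem hj)]
      simp
    · push Not at hy
      exact ⟨y, hF2 y hy⟩
  exact ⟨mkA F hmono hsurj, hF1, hF2⟩

/-- Pointwise maximum. -/
noncomputable def sup (f g : A) : A :=
  mkA (fun x => max (f x) (g x))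
    (fun x y h => max_lt_max (f.strictMono h) (g.strictMono h))
    (by
      intro y
      refine ⟨min (f⁻¹ y) (g⁻¹ y), ?_⟩
      have h1 : f (min (f⁻¹ y) (g⁻¹ y)) ≤ y := by
        have := f.monotone (min_le_left (f⁻¹ y) (g⁻¹ y))
        rwa [app_inv_self] at this
      have h2 : g (min (f⁻¹ y) (g⁻¹ y)) ≤ y := by
        have := g.monotone (min_le_right (f⁻¹ y) (g⁻¹ y))
        rwa [app_inv_self] at this
      rcases min_choice (f⁻¹ y) (g⁻¹ y) with h | h
      · have h3 : f (min (f⁻¹ y) (g⁻¹ y)) = y := by rw [h, app_inv_self]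
        simp only [h3]
        exact max_eq_left h2
      · have h3 : g (min (f⁻¹ y) (g⁻¹ y)) = y := by rw [h, app_inv_self]
        simp only [h3]
        exact max_eq_right h1)

/-- Pointwise minimum. -/
noncomputable def inf (f g : A) : A :=
  mkA (fun x => min (f x) (g x))
    (fun x y h => min_lt_min (f.strictMono h) (g.strictMono h))
    (by
      intro y
      refine ⟨max (f⁻¹ y) (g⁻¹ y), ?_⟩
      have h1 : y ≤ f (max (f⁻¹ y) (g⁻¹ y)) := by
        have := f.monotone (le_max_left (f⁻¹ y) (g⁻¹ y))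
        rwa [app_inv_self] at this
      have h2 : y ≤ g (max (f⁻¹ y) (g⁻¹ y)) := by
        have := g.monotone (le_max_right (f⁻¹ y) (g⁻¹ y))
        rwa [app_inv_self] at this
      rcases max_choice (f⁻¹ y) (g⁻¹ y) with h | h
      · have h3 : f (max (f⁻¹ y) (g⁻¹ y)) = y := by rw [h, app_inv_self]
        simp only [h3]
        exact min_eq_left h2
      · have h3 : g (max (f⁻¹ y) (g⁻¹ y)) = y := by rw [h, app_inv_self]
        simp only [h3]
        exact min_eq_right h1)

@[simp] lemma sup_app (f g : A) (x : ℝ) : sup f g x = max (f x) (g x) := rfl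

@[simp] lemma inf_app (f g : A) (x : ℝ) : inf f g x = min (f x) (g x) := rfl

/-- The cut-off of `f` by `u` from above and by `u⁻¹` from below. -/
noncomputable def clip (f u : A) : A := sup (inf f u) u⁻¹

@[simp] lemma clip_app (f u : A) (x : ℝ) : clip f u x = max (min (f x) (u x)) (u⁻¹ x) := rfl

lemma inv_le_of_ge {u : A} (hu : ∀ x, x ≤ u x) (x : ℝ) : u⁻¹ x ≤ x := by
  have := hu (u⁻¹ x)
  rwa [app_inv_self] at this

lemma clip_fix {f u : A} {x : ℝ} (h : u x = x) : clip f u x = x := by
  have h1 : u⁻¹ x = x := by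
    conv_lhs => rw [← h]
    simp
  rw [clip_app, h, h1]
  exact max_eq_right (min_le_right _ _)

lemma clip_of_fix {f u : A} (hu : ∀ x, x ≤ u x) {x : ℝ} (h : f x = x) : clip f u x = x := by
  rw [clip_app, h, min_eq_left (hu x)]
  exact max_eq_left (inv_le_of_ge hu x)

lemma clip_up {f u : A} (hu : ∀ x, x ≤ u x) {x : ℝ} (h : x ≤ f x) :
    clip f u x = min (f x) (u x) := by
  rw [clip_app]
  exact max_eq_left ((inv_le_of_ge hu x).trans (le_min h (hu x)))

lemma clip_down {f u : A} (hu : ∀ x, x ≤ u x) {x : ℝ} (h : f x ≤ x) :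
    clip f u x = max (f x) (u⁻¹ x) := by
  rw [clip_app, min_eq_left (h.trans (hu x))]

/-- The remainder after clipping stays between `x` and `f x`. -/
lemma rem_up {f u : A} (hu : ∀ x, x ≤ u x) {x : ℝ} (h : x ≤ f x) :
    x ≤ ((clip f u)⁻¹ * f) x ∧ ((clip f u)⁻¹ * f) x ≤ f x := by
  rw [mul_app]
  constructor
  · have h1 : clip f u x ≤ f x := by
      rw [clip_up hu h]; exact min_le_left _ _
    have := (clip f u)⁻¹.monotone h1
    rwa [inv_app_self] at this
  · have h2 : f x ≤ f (f x) := f.monotone h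
    have h1 : f x ≤ clip f u (f x) := by
      rw [clip_up hu h2]; exact le_min h2 (hu _)
    have := (clip f u)⁻¹.monotone h1
    rwa [inv_app_self] at this

lemma rem_down {f u : A} (hu : ∀ x, x ≤ u x) {x : ℝ} (h : f x ≤ x) :
    ((clip f u)⁻¹ * f) x ≤ x ∧ f x ≤ ((clip f u)⁻¹ * f) x := by
  rw [mul_app]
  constructor
  · have h1 : f x ≤ clip f u x := by
      rw [clip_down hu h]; exact le_max_left _ _
    have := (clip f u)⁻¹.monotone h1
    rwa [inv_app_self] at this
  · have h2 : f (f x) ≤ f x := f.monotone h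
    have h1 : clip f u (f x) ≤ f x := by
      rw [clip_down hu h2]; exact max_le h2 (inv_le_of_ge hu _)
    have := (clip f u)⁻¹.monotone h1
    rwa [inv_app_self] at this

/-- translation by `c` -/
noncomputable def tr (c : ℝ) : A := OrderIso.addRight c

@[simp] lemma tr_app (c x : ℝ) : tr c x = x + c := rfl

lemma tr_inv (c x : ℝ) : (tr c)⁻¹ x = x - c := by
  have h := inv_app_self (tr c) (x - c)
  rwa [tr_app, sub_add_cancel] at h

lemma tr_pow (n : ℕ) (x : ℝ) : (tr 1 ^ n) x = x + n := by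
  induction n with
  | zero => simp
  | succ n ih => rw [pow_succ', mul_app, ih]; simp; ring

lemma tr_pow_inv (n : ℕ) (x : ℝ) : ((tr 1 ^ n)⁻¹) x = x - n := by
  have h := inv_app_self (tr 1 ^ n) (x - n)
  rwa [tr_pow, sub_add_cancel] at h

/-- displacement at most `C` -/
def Disp (f : A) (C : ℝ) : Prop := ∀ x, |f x - x| ≤ C

/-- `(p, q)` and its translates by multiples of `60`. -/
def Per (p q : ℝ) : Set ℝ := {x | ∃ k : ℤ, p + 60 * k < x ∧ x < q + 60 * k}

/-- A bump homeomorphism of one interval. -/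
lemma exists_bump0 (p r t q : ℝ) (h1 : p < r) (h2 : r < t) (h3 : t < q) :
    ∃ β : A, (∀ x, x ≤ β x) ∧ (∀ x, x ≤ p → β x = x) ∧ (∀ x, q ≤ x → β x = x) ∧ β r = t := by
  have hp : 0 < r - p := sub_pos.mpr h1
  have hq : 0 < q - r := by linarith
  have hs1 : 0 < (t - p) / (r - p) := div_pos (by linarith) hp
  have hs2 : 0 < (q - t) / (q - r) := div_pos (by linarith) hq
  let L1 : A := mkA (fun x => (t - p) / (r - p) * (x - p) + p)
    (fun x y h => by
      have := mul_lt_mul_of_pos_left (sub_lt_sub_right h p) hs1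
      simpa using this)
    (fun y => ⟨(y - p) / ((t - p) / (r - p)) + p, by
      have : (t - p) / (r - p) * ((y - p) / ((t - p) / (r - p)) + p - p) + p = y := by
        rw [add_sub_cancel_right, mul_div_cancel₀ _ hs1.ne']; ring
      exact this⟩)
  let L2 : A := mkA (fun x => (q - t) / (q - r) * (x - q) + q)
    (fun x y h => by
      have := mul_lt_mul_of_pos_left (sub_lt_sub_right h q) hs2
      simpa using this)
    (fun y => ⟨(y - q) / ((q - t) / (q - r)) + q, by
      have : (q - t) / (q - r) * ((y - q) / ((q - t) / (q - r)) + q - q) + q = y := by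
        rw [add_sub_cancel_right, mul_div_cancel₀ _ hs2.ne']; ring
      exact this⟩)
  have e1 : ∀ x, L1 x = (t - p) / (r - p) * (x - p) + p := fun _ => rfl
  have e2 : ∀ x, L2 x = (q - t) / (q - r) * (x - q) + q := fun _ => rfl
  have g1 : 1 < (t - p) / (r - p) := by rw [one_lt_div hp]; linarith
  have g2 : (q - t) / (q - r) < 1 := by rw [div_lt_one hq]; linarith
  refine ⟨sup 1 (inf L1 L2), ?_, ?_, ?_, ?_⟩
  · intro x
    rw [sup_app, one_app]; exact le_max_left _ _
  · intro x hx
    rw [sup_app, one_app, inf_app]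
    apply max_eq_left
    apply (min_le_left _ _).trans
    rw [e1]; nlinarith
  · intro x hx
    rw [sup_app, one_app, inf_app]
    apply max_eq_left
    apply (min_le_right _ _).trans
    rw [e2]; nlinarith
  · rw [sup_app, one_app, inf_app, e1, e2]
    have a1 : (t - p) / (r - p) * (r - p) + p = t := by field_simp; ring
    have a2 : (q - t) / (q - r) * (r - q) + q = t := by
      have : r - q = -(q - r) := by ring
      rw [this, mul_neg, div_mul_cancel₀ _ hq.ne']; ring
    rw [a1, a2, min_self]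
    exact max_eq_right h2.le

lemma per_disj_aux {p q x : ℝ} (h : q - p ≤ 60) {k l : ℤ} (hk : p + 60 * k < x ∧ x < q + 60 * k)
    (hl : p + 60 * l < x ∧ x < q + 60 * l) : k = l := by
  by_contra hne
  rcases lt_or_gt_of_ne hne with hlt | hlt
  · have : (k : ℝ) + 1 ≤ l := by exact_mod_cast hlt
    nlinarith
  · have : (l : ℝ) + 1 ≤ k := by exact_mod_cast hlt
    nlinarith

/-- A periodic bump homeomorphism. -/
lemma exists_bump (p r t q : ℝ) (h1 : p < r) (h2 : r < t) (h3 : t < q) (h4 : q - p ≤ 60) :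
    ∃ β : A, (∀ x, x ≤ β x) ∧ Supp β (Per p q) ∧ (∀ k : ℤ, β (r + 60 * k) = t + 60 * k) := by
  obtain ⟨β, b1, b2, b3, b4⟩ := exists_bump0 p r t q h1 h2 h3
  let U : ℤ → Set ℝ := fun k => {x | p + 60 * k < x ∧ x < q + 60 * k}
  let g : ℤ → A := fun k => tr (60 * k) * β * (tr (60 * k))⁻¹
  have hg : ∀ k x, g k x = β (x - 60 * k) + 60 * k := by
    intro k x
    simp only [g, mul_app, tr_inv, tr_app]
  have hU : Pairwise (Function.onFun Disjoint U) := by
    intro k l hkl
    rw [Function.onFun, Set.disjoint_left]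
    intro x hk hl
    exact hkl (per_disj_aux h4 hk hl)
  obtain ⟨G, G1, G2⟩ := glue U hU g (by
    intro k x hx
    rw [hg]
    have hx : ¬ (p + 60 * (k : ℝ) < x ∧ x < q + 60 * k) := hx
    simp only [not_and_or, not_lt] at hx
    rcases hx with hx | hx
    · rw [b2 _ (by linarith)]; ring
    · rw [b3 _ (by linarith)]; ring)
  refine ⟨G, ?_, ?_, ?_⟩
  · intro x
    by_cases hx : ∃ k, x ∈ U k
    · obtain ⟨k, hk⟩ := hx
      rw [G1 k x hk, hg]
      have := b1 (x - 60 * k)
      linarith
    · push Not at hx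
      rw [G2 x hx]
  · intro x hx
    exact G2 x (fun k hk => hx ⟨k, hk⟩)
  · intro k
    rw [G1 k (r + 60 * k) (by
      show p + 60 * (k : ℝ) < r + 60 * k ∧ r + 60 * (k : ℝ) < q + 60 * k
      constructor <;> linarith), hg]
    have : r + 60 * (k : ℝ) - 60 * k = r := by ring
    rw [this, b4]

/-- Periodic sets are shifted by translations. -/
lemma per_tr (p q c x : ℝ) : x - c ∈ Per p q ↔ x ∈ Per (p + c) (q + c) := by
  constructor
  · rintro ⟨k, h1, h2⟩
    exact ⟨k, by linarith, by linarith⟩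
  · rintro ⟨k, h1, h2⟩
    exact ⟨k, by linarith, by linarith⟩

lemma per_mono {p q p' q' : ℝ} (h1 : p' ≤ p) (h2 : q ≤ q') : Per p q ⊆ Per p' q' := by
  rintro x ⟨k, h3, h4⟩
  exact ⟨k, by linarith, by linarith⟩

/-- Two cells in one period are disjoint. -/
lemma per_disj {p q p' q' : ℝ} (h1 : q ≤ p') (h2 : q' ≤ p + 60) :
    Disjoint (Per p q) (Per p' q') := by
  rw [Set.disjoint_left]
  rintro x ⟨k, h3, h4⟩ ⟨l, h5, h6⟩
  rcases lt_trichotomy k l with h | h | h
  · have : (k : ℝ) + 1 ≤ l := by exact_mod_cast h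
    nlinarith
  · subst h
    linarith
  · have : (l : ℝ) + 1 ≤ k := by exact_mod_cast h
    nlinarith

/-- The wandering sets of a bump homeomorphism `s` which moves `r` to `t`. -/
def Wan (s : A) (r t : ℝ) (m : ℤ) : Set ℝ :=
  {x | ∃ k : ℤ, (s ^ m) (r + 60 * k) < x ∧ x < (s ^ m) (t + 60 * k)}

lemma wan_zero (s : A) (r t : ℝ) : Wan s r t 0 = Per r t := by
  ext x
  simp [Wan, Per]

lemma wan_shift (s : A) (r t : ℝ) (m n : ℤ) (x : ℝ) :
    (s ^ n) x ∈ Wan s r t (n + m) ↔ x ∈ Wan s r t m := by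
  constructor
  · rintro ⟨k, h1, h2⟩
    rw [zpow_add, mul_app] at h1 h2
    exact ⟨k, (s ^ n).lt_iff_lt.mp h1, (s ^ n).lt_iff_lt.mp h2⟩
  · rintro ⟨k, h1, h2⟩
    refine ⟨k, ?_, ?_⟩
    · rw [zpow_add, mul_app]; exact (s ^ n).lt_iff_lt.mpr h1
    · rw [zpow_add, mul_app]; exact (s ^ n).lt_iff_lt.mpr h2

lemma zpow_mono {s : A} (hs : ∀ x, x ≤ s x) {m n : ℤ} (h : m ≤ n) (x : ℝ) :
    (s ^ m) x ≤ (s ^ n) x := by
  obtain ⟨k, rfl⟩ := Int.exists_add_of_le h
  have : ∀ (k : ℕ) (y : ℝ), y ≤ (s ^ k) y := by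
    intro k
    induction k with
    | zero => intro y; simp
    | succ k ih => intro y; rw [pow_succ, mul_app]; exact (hs y).trans (ih _)
  rw [add_comm, zpow_add, mul_app, zpow_natCast]
  exact this k _

lemma supp_zpow {s : A} {S : Set ℝ} (h : Supp s S) (m : ℤ) : Supp (s ^ m) S := by
  intro x hx
  have hn : ∀ k : ℕ, (s ^ k) x = x := by
    intro k
    induction k with
    | zero => simp
    | succ k ih => rw [pow_succ', mul_app, ih, h x hx]
  obtain ⟨k, rfl | rfl⟩ := m.eq_nat_or_neg
  · rw [zpow_natCast]; exact hn k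
  · rw [zpow_neg, zpow_natCast]
    have := inv_app_self (s ^ k) x
    rwa [hn k] at this

lemma wan_sub {s : A} {p q r t : ℝ} (hs : Supp s (Per p q)) (h1 : p < r) (h2 : r < t)
    (h3 : t < q) (h4 : q - p ≤ 60) {m : ℤ} {x : ℝ} {k : ℤ}
    (hx : (s ^ m) (r + 60 * k) < x ∧ x < (s ^ m) (t + 60 * k)) :
    p + 60 * k < x ∧ x < q + 60 * k := by
  have hp : (s ^ m) (p + 60 * k) = p + 60 * k := by
    apply supp_zpow hs
    rintro ⟨l, h5, h6⟩
    rcases lt_trichotomy k l with h | h | h
    · have : (k : ℝ) + 1 ≤ l := by exact_mod_cast h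
      nlinarith
    · subst h
      linarith
    · have : (l : ℝ) + 1 ≤ k := by exact_mod_cast h
      nlinarith
  have hq : (s ^ m) (q + 60 * k) = q + 60 * k := by
    apply supp_zpow hs
    rintro ⟨l, h5, h6⟩
    rcases lt_trichotomy k l with h | h | h
    · have : (k : ℝ) + 1 ≤ l := by exact_mod_cast h
      nlinarith
    · subst h
      linarith
    · have : (l : ℝ) + 1 ≤ k := by exact_mod_cast h
      nlinarith
  have e1 : (s ^ m) (p + 60 * k) < (s ^ m) (r + 60 * k) := (s ^ m).strictMono (by linarith)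
  have e2 : (s ^ m) (t + 60 * k) < (s ^ m) (q + 60 * k) := (s ^ m).strictMono (by linarith)
  rw [hp] at e1
  rw [hq] at e2
  exact ⟨e1.trans hx.1, hx.2.trans e2⟩

lemma wan_subset {s : A} {p q r t : ℝ} (hs : Supp s (Per p q)) (h1 : p < r) (h2 : r < t)
    (h3 : t < q) (h4 : q - p ≤ 60) (m : ℤ) : Wan s r t m ⊆ Per p q := by
  rintro x ⟨k, hk⟩
  exact ⟨k, wan_sub hs h1 h2 h3 h4 hk⟩

lemma wan_disj {s : A} {p q r t : ℝ} (hs0 : ∀ x, x ≤ s x) (hs : Supp s (Per p q)) (h1 : p < r)
    (h2 : r < t) (h3 : t < q) (h4 : q - p ≤ 60) (hrt : ∀ k : ℤ, s (r + 60 * k) = t + 60 * k)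
    {m n : ℤ} (hmn : m ≠ n) : Disjoint (Wan s r t m) (Wan s r t n) := by
  rw [Set.disjoint_left]
  rintro x ⟨k, hk⟩ ⟨l, hl⟩
  have hkl : k = l := per_disj_aux h4 (wan_sub hs h1 h2 h3 h4 hk) (wan_sub hs h1 h2 h3 h4 hl)
  subst hkl
  have key : ∀ j : ℤ, (s ^ j) (t + 60 * k) = (s ^ (j + 1)) (r + 60 * k) := by
    intro j
    rw [zpow_add, mul_app, zpow_one, hrt]
  rw [key] at hk hl
  rcases lt_or_gt_of_ne hmn with h | h
  · have := zpow_mono hs0 (show m + 1 ≤ n by omega) (r + 60 * k)
    linarith [hk.1, hk.2, hl.1, hl.2]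
  · have := zpow_mono hs0 (show n + 1 ≤ m by omega) (r + 60 * k)
    linarith [hk.1, hk.2, hl.1, hl.2]

/-- Every automorphism supported in the wandering set `Wan v r t 0` is a commutator `[F, v]`. -/
lemma exists_comm {v : A} {p q r t : ℝ} (hs0 : ∀ x, x ≤ v x) (hs : Supp v (Per p q)) (h1 : p < r)
    (h2 : r < t) (h3 : t < q) (h4 : q - p ≤ 60) (hrt : ∀ k : ℤ, v (r + 60 * k) = t + 60 * k)
    (h : A) (hh : Supp h (Per r t)) :
    ∃ F : A, Supp F (Per p q) ∧ F * v * F⁻¹ * v⁻¹ = h := by
  let U : ℕ → Set ℝ := fun i => Wan v r t i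
  let g : ℕ → A := fun i => v ^ (i : ℤ) * h * (v ^ (i : ℤ))⁻¹
  have hU : Pairwise (Function.onFun Disjoint U) := by
    intro i j hij
    exact wan_disj hs0 hs h1 h2 h3 h4 hrt (by exact_mod_cast hij)
  have hsh : ∀ (i : ℤ) (x : ℝ), x ∈ Wan v r t i ↔ (v ^ i)⁻¹ x ∈ Wan v r t 0 := by
    intro i x
    have := wan_shift v r t 0 i ((v ^ i)⁻¹ x)
    rw [app_inv_self, add_zero] at this
    exact this
  obtain ⟨F, F1, F2⟩ := glue U hU g (by
    intro i x hx
    simp only [g, mul_app]
    have : (v ^ (i : ℤ))⁻¹ x ∉ Per r t := by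
      intro hc
      rw [← wan_zero v, ← hsh] at hc
      exact hx hc
    rw [hh _ this, app_inv_self])
  refine ⟨F, ?_, ?_⟩
  · intro x hx
    apply F2
    intro i hi
    exact hx (wan_subset hs h1 h2 h3 h4 i hi)
  · have key : F = h * (v * F * v⁻¹) := by
      apply ext'
      intro x
      simp only [mul_app]
      by_cases hx : ∃ i : ℕ, x ∈ Wan v r t i
      · obtain ⟨i, hi⟩ := hx
        rcases i with _ | i
        · have hv : v⁻¹ x ∈ Wan v r t (-1) := by
            have := (wan_shift v r t (-1) 1 (v⁻¹ x)).mp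
            rw [zpow_one, app_inv_self] at this
            exact this (by simpa using hi)
          have hF : F (v⁻¹ x) = v⁻¹ x := by
            apply F2
            intro j hj
            exact Set.disjoint_left.mp
              (wan_disj hs0 hs h1 h2 h3 h4 hrt (show (-1 : ℤ) ≠ (j : ℤ) by omega)) hv hj
          rw [hF, app_inv_self, F1 0 x hi]
          simp [g]
        · have hv : v⁻¹ x ∈ Wan v r t (i : ℕ) := by
            have := (wan_shift v r t i 1 (v⁻¹ x)).mp
            rw [zpow_one, app_inv_self] at this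
            apply this
            have e : (1 : ℤ) + (i : ℤ) = ((i + 1 : ℕ) : ℤ) := by push_cast; ring
            rw [e]; exact hi
          rw [F1 _ _ hv, F1 _ _ hi]
          have e : ∀ y, v ((g i) (v⁻¹ y)) = g (i + 1) y := by
            intro y
            simp only [g, mul_app]
            have e1 : v ^ ((i + 1 : ℕ) : ℤ) = v * v ^ (i : ℤ) := by
              push_cast
              rw [add_comm, zpow_add, zpow_one]
            rw [e1, mul_inv_rev, mul_app, mul_app]
          rw [e]
          symm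
          apply hh
          intro hc
          rw [← wan_zero v] at hc
          have hmem : g (i + 1) x ∈ Wan v r t ((i + 1 : ℕ) : ℤ) := by
            rw [← F1 _ _ hi]
            have hS : Supp (g (i + 1)) (Wan v r t ((i + 1 : ℕ) : ℤ)) := by
              intro y hy
              simp only [g, mul_app]
              have : (v ^ ((i + 1 : ℕ) : ℤ))⁻¹ y ∉ Per r t := by
                intro hc
                rw [← wan_zero v, ← hsh] at hc
                exact hy hc
              rw [hh _ this, app_inv_self]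
            rw [F1 _ _ hi]
            exact hS.mem hi
          exact Set.disjoint_left.mp
            (wan_disj hs0 hs h1 h2 h3 h4 hrt (show (0 : ℤ) ≠ ((i + 1 : ℕ) : ℤ) by omega)) hc hmem
      · push Not at hx
        have hv : ∀ j : ℕ, v⁻¹ x ∉ Wan v r t j := by
          intro j hj
          apply hx (j + 1)
          have := (wan_shift v r t j 1 (v⁻¹ x)).mpr hj
          rw [zpow_one, app_inv_self] at this
          have e : (1 : ℤ) + (j : ℤ) = ((j + 1 : ℕ) : ℤ) := by push_cast; ring
          rwa [e] at this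
        rw [F2 _ hx, F2 _ hv, app_inv_self]
        symm
        apply hh
        intro hc
        rw [← wan_zero v] at hc
        exact hx 0 (by simpa using hc)
    calc F * v * F⁻¹ * v⁻¹ = F * (v * F * v⁻¹)⁻¹ := by group
      _ = h := mul_inv_eq_iff_eq_mul.mpr key

/-- Group theory behind the encoding: `b = x * θ`, `b' = s * z` where `x` commutes with everything,
`z` commutes with everything. -/
lemma word_eq {G : Type*} [Group G] {x θ s z : G} (h2 : Commute x s)
    (h3 : Commute x z) (h4 : Commute z θ) (h5 : Commute z s) (e : ℕ) :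
    ((s * z) ^ e)⁻¹ * (x * θ) * (s * z) ^ e = x * ((s ^ e)⁻¹ * θ * s ^ e) := by
  have hz : Commute (z ^ e) (s ^ e) := h5.pow_pow e e
  have hzθ : Commute (z ^ e) θ := h4.pow_left e
  have hxz : Commute x (z ^ e) := h3.pow_right e
  have hxs : Commute x (s ^ e) := h2.pow_right e
  rw [h5.symm.mul_pow]
  have a1 : x * θ * (s ^ e * z ^ e) = x * θ * s ^ e * z ^ e := by group
  have a2 : x * θ * s ^ e * z ^ e = z ^ e * (x * θ * s ^ e) :=
    ((hxz.symm.mul_right hzθ).mul_right hz).eq.symm
  have a3 : x * θ * s ^ e = s ^ e * (x * ((s ^ e)⁻¹ * θ * s ^ e)) := by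
    rw [← mul_assoc (s ^ e) x, ← hxs.eq]
    group
  rw [mul_assoc, a1, a2, a3, mul_inv_rev]
  have : (z ^ e)⁻¹ * (s ^ e)⁻¹ = (s ^ e)⁻¹ * (z ^ e)⁻¹ := by
    rw [← mul_inv_rev, ← mul_inv_rev, hz.eq]
  rw [this]
  group

lemma comm_eq {G : Type*} [Group G] {x α θ : G} (h1 : Commute x θ) (h2 : Commute x α) :
    (x * α) * (x * θ) * (x * α)⁻¹ * (x * θ)⁻¹ = α * θ * α⁻¹ * θ⁻¹ := by
  have e1 : (x * α) * (x * θ) = x * x * (α * θ) := by
    rw [mul_assoc, ← mul_assoc α x θ, ← h2.eq]; group
  have e2 : (x * α)⁻¹ * (x * θ)⁻¹ = (x * x)⁻¹ * (α⁻¹ * θ⁻¹) := by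
    have h1' : Commute x⁻¹ θ⁻¹ := h1.inv_inv
    have h2' : Commute x⁻¹ α⁻¹ := h2.inv_inv
    rw [mul_inv_rev, mul_inv_rev, mul_inv_rev, ← h2'.eq, mul_assoc, ← mul_assoc α⁻¹ θ⁻¹ x⁻¹,
      ← (h2'.mul_right h1').eq]
    group
  rw [mul_assoc, e1, e2]
  have h3 : Commute (x * x)⁻¹ (α * θ) := by
    apply Commute.inv_left
    exact (h2.mul_right h1).mul_left (h2.mul_right h1)
  calc x * x * (α * θ) * ((x * x)⁻¹ * (α⁻¹ * θ⁻¹))
      = x * x * ((α * θ) * (x * x)⁻¹) * (α⁻¹ * θ⁻¹) := by group
    _ = x * x * ((x * x)⁻¹ * (α * θ)) * (α⁻¹ * θ⁻¹) := by rw [h3.eq]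
    _ = _ := by group

lemma comm_eq2 {G : Type*} [Group G] {F v R S : G} (h1 : Commute R v) (h2 : Commute R S)
    (h3 : Commute R F) (h4 : Commute S F) (h5 : Commute S v) :
    (F * R) * (v * S) * (F * R)⁻¹ * (v * S)⁻¹ = F * v * F⁻¹ * v⁻¹ := by
  have e1 : (F * R) * (v * S) = (F * v) * (R * S) := by
    rw [mul_assoc, ← mul_assoc R v S, h1.eq]; group
  have e2 : (F * R)⁻¹ * (v * S)⁻¹ = (R * S)⁻¹ * (F⁻¹ * v⁻¹) := by
    rw [mul_inv_rev, mul_inv_rev, mul_inv_rev]
    have c1 : Commute F⁻¹ S⁻¹ := h4.symm.inv_inv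
    have c2 : S⁻¹ * R⁻¹ = R⁻¹ * S⁻¹ := (h2.symm.inv_inv).eq
    rw [c2, mul_assoc, ← mul_assoc F⁻¹ S⁻¹ v⁻¹, c1.eq]
    group
  rw [mul_assoc, e1, e2]
  have h6 : Commute (R * S)⁻¹ (F * v) :=
    ((h3.mul_right h1).mul_left (h4.mul_right h5)).inv_left
  have : Commute (R * S)⁻¹ (F * v) := h6
  calc F * v * (R * S) * ((R * S)⁻¹ * (F⁻¹ * v⁻¹)) = F * v * F⁻¹ * v⁻¹ := by group

/-- **Encoding.** Countably many automorphisms supported in `Per 0 4` are contained in one
subgroup generated by the unit translation and one more automorphism. -/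
theorem encode (h : ℕ → A) (hh : ∀ j, Supp (h j) (Per 0 4)) :
    ∃ b : A, ∀ j, h j ∈ Subgroup.closure ({tr 1, b} : Set A) := by
  obtain ⟨v, v1, v2, v3⟩ := exists_bump (-4) 0 4 8 (by norm_num) (by norm_num) (by norm_num)
    (by norm_num)
  obtain ⟨s, s1, s2, s3⟩ := exists_bump (-8) (-4) 8 12 (by norm_num) (by norm_num) (by norm_num)
    (by norm_num)
  have hF : ∀ j, ∃ F : A, Supp F (Per (-4) 8) ∧ F * v * F⁻¹ * v⁻¹ = h j := fun j =>
    exists_comm v1 v2 (by norm_num) (by norm_num) (by norm_num) (by norm_num) v3 (h j) (hh j)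
  choose F F1 F2 using hF
  -- the positions
  let e : ℕ → ℕ := fun n => match n with
    | 0 => 0
    | j + 1 => 2 * j + 1
  let w : ℕ → A := fun n => match n with
    | 0 => v
    | j + 1 => F j
  have hw : ∀ n, Supp (w n) (Per (-4) 8) := by
    intro n
    rcases n with _ | j
    · exact v2
    · exact F1 j
  have he : ∀ {m n : ℕ}, e m = e n → m = n := by
    intro m n hmn
    rcases m with _ | m <;> rcases n with _ | n <;> simp only [e] at hmn <;> omega
  let U : ℕ → Set ℝ := fun n => Wan s (-4) 8 (e n)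
  let g : ℕ → A := fun n => s ^ (e n : ℤ) * w n * (s ^ (e n : ℤ))⁻¹
  have wd : ∀ {m n : ℤ}, m ≠ n → Disjoint (Wan s (-4) 8 m) (Wan s (-4) 8 n) := fun {m n} hmn =>
    wan_disj s1 s2 (by norm_num) (by norm_num) (by norm_num) (by norm_num) s3 hmn
  have ws : ∀ m : ℤ, Wan s (-4) 8 m ⊆ Per (-8) 12 :=
    wan_subset s2 (by norm_num) (by norm_num) (by norm_num) (by norm_num)
  have hU : Pairwise (Function.onFun Disjoint U) := by
    intro i j hij
    apply wd
    intro h'
    exact hij (he (by exact_mod_cast h'))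
  have hsh : ∀ (i : ℤ) (x : ℝ), x ∈ Wan s (-4) 8 i ↔ (s ^ i)⁻¹ x ∈ Wan s (-4) 8 0 := by
    intro i x
    have := wan_shift s (-4) 8 0 i ((s ^ i)⁻¹ x)
    rw [app_inv_self, add_zero] at this
    exact this
  obtain ⟨θ, T1, T2⟩ := glue U hU g (by
    intro n x hx
    simp only [g, mul_app]
    have : (s ^ (e n : ℤ))⁻¹ x ∉ Per (-4) 8 := by
      intro hc
      rw [← wan_zero s, ← hsh] at hc
      exact hx hc
    rw [hw n _ this, app_inv_self])
  have hθ : Supp θ (Per (-8) 12) := by
    intro x hx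
    exact T2 x (fun n hn => hx (ws _ hn))
  -- the decomposition `θ = v * S`
  have hS : Supp (v⁻¹ * θ) (⋃ n : ℕ, Wan s (-4) 8 (e (n + 1))) := by
    intro x hx
    simp only [Set.mem_iUnion, not_exists] at hx
    rw [mul_app]
    by_cases h0 : x ∈ Wan s (-4) 8 0
    · rw [T1 0 x (by simpa [U, e] using h0)]
      simp [g, e, w]
    · rw [T2 x]
      · apply (v2.inv.mono (per_mono le_rfl le_rfl))
        rwa [wan_zero] at h0
      · intro n
        rcases n with _ | n
        · simpa [U, e] using h0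
        · exact hx n
  -- the shifted copy
  have key : ∀ j, ((s ^ e (j + 1))⁻¹ * θ * s ^ e (j + 1)) * θ *
      ((s ^ e (j + 1))⁻¹ * θ * s ^ e (j + 1))⁻¹ * θ⁻¹ = h j := by
    intro j
    set α := (s ^ e (j + 1))⁻¹ * θ * s ^ e (j + 1) with hα
    have hR : Supp ((F j)⁻¹ * α)
        (⋃ n : {n : ℕ // n ≠ j + 1}, Wan s (-4) 8 ((e n : ℤ) - e (j + 1))) := by
      intro x hx
      simp only [Set.mem_iUnion, not_exists] at hx
      rw [mul_app, hα, mul_app, mul_app]
      have hmem : ∀ n : ℕ, (s ^ e (j + 1)) x ∈ Wan s (-4) 8 (e n) ↔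
          x ∈ Wan s (-4) 8 ((e n : ℤ) - e (j + 1)) := by
        intro n
        have := wan_shift s (-4) 8 ((e n : ℤ) - e (j + 1)) (e (j + 1)) x
        rw [zpow_natCast, add_sub_cancel] at this
        exact this
      by_cases h0 : x ∈ Wan s (-4) 8 0
      · have h1 : (s ^ e (j + 1)) x ∈ Wan s (-4) 8 (e (j + 1)) := by
          exact (hmem (j + 1)).mpr (by rw [sub_self]; exact h0)
        rw [T1 (j + 1) _ h1]
        simp only [g, mul_app, w, zpow_natCast, inv_app_self]
      · have h2 : ∀ n, (s ^ e (j + 1)) x ∉ U n := by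
          intro n hn
          by_cases hnj : n = j + 1
          · subst hnj
            have := (hmem (j + 1)).mp hn
            rw [sub_self] at this
            exact h0 this
          · exact hx ⟨n, hnj⟩ ((hmem n).mp hn)
        rw [T2 _ h2, inv_app_self]
        apply (F1 j).inv
        rwa [wan_zero] at h0
    have d1 : Disjoint (⋃ n : {n : ℕ // n ≠ j + 1}, Wan s (-4) 8 ((e n : ℤ) - e (j + 1)))
        (Per (-4) 8) := by
      rw [Set.disjoint_iUnion_left]
      rintro ⟨n, hn⟩
      rw [← wan_zero s]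
      apply wd
      intro h'
      apply hn
      apply he
      simp only [] at h'
      omega
    have d2 : Disjoint (⋃ n : ℕ, Wan s (-4) 8 (e (n + 1))) (Per (-4) 8) := by
      rw [Set.disjoint_iUnion_left]
      intro n
      rw [← wan_zero s]
      apply wd
      simp only [e]
      omega
    have d3 : Disjoint (⋃ n : {n : ℕ // n ≠ j + 1}, Wan s (-4) 8 ((e n : ℤ) - e (j + 1)))
        (⋃ n : ℕ, Wan s (-4) 8 (e (n + 1))) := by
      rw [Set.disjoint_iUnion_left]
      rintro ⟨n, hn⟩
      rw [Set.disjoint_iUnion_right]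
      intro m
      apply wd
      intro h'
      rcases n with _ | n
      · simp only [e] at h'; omega
      · simp only [e] at h'; omega
    have e1 : α = F j * ((F j)⁻¹ * α) := by group
    have e2 : θ = v * (v⁻¹ * θ) := by group
    rw [e1]
    conv_lhs => rw [e2]
    rw [comm_eq2 (hR.commute v2 d1) (hR.commute hS d3) (hR.commute (F1 j) d1)
      (hS.commute (F1 j) d2) (hS.commute v2 d2), F2]
  -- the second generator
  let c : A := tr 1 ^ 20
  have hc : ∀ x, c x = x + 20 := by
    intro x; simp only [c, tr_pow]; norm_num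
  have hci : ∀ x, c⁻¹ x = x - 20 := by
    intro x; simp only [c, tr_pow_inv]; norm_num
  have hX : Supp (c⁻¹ * s * c) (Per (-28) (-8)) := by
    intro x hx
    simp only [mul_app]
    have h2 : c x ∉ Per (-8) 12 := by
      intro h'
      apply hx
      rw [hc] at h'
      have := per_tr (-8) 12 (-20) x
      rw [sub_neg_eq_add] at this
      have := this.mp h'
      norm_num at this
      exact this
    rw [s2 _ h2, inv_app_self]
  have hZ : Supp (c * θ * c⁻¹) (Per 12 32) := by
    intro x hx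
    simp only [mul_app]
    have h2 : c⁻¹ x ∉ Per (-8) 12 := by
      intro h'
      apply hx
      rw [hci] at h'
      have := (per_tr (-8) 12 20 x).mp h'
      norm_num at this
      exact this
    rw [hθ _ h2, app_inv_self]
  have dXY : Disjoint (Per (-28) (-8)) (Per (-8) 12) := per_disj (by norm_num) (by norm_num)
  have dXZ : Disjoint (Per (-28) (-8)) (Per 12 32) := per_disj (by norm_num) (by norm_num)
  have dZY : Disjoint (Per 12 32) (Per (-8) 12) := (per_disj (by norm_num) (by norm_num)).symm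
  refine ⟨c⁻¹ * s * c * θ, ?_⟩
  intro j
  set b := c⁻¹ * s * c * θ with hb
  have hbc : b ∈ Subgroup.closure ({tr 1, b} : Set A) := Subgroup.subset_closure (by simp)
  have htc : tr 1 ∈ Subgroup.closure ({tr 1, b} : Set A) := Subgroup.subset_closure (by simp)
  have hcc : c ∈ Subgroup.closure ({tr 1, b} : Set A) := Subgroup.pow_mem _ htc 20
  have hb' : c * b * c⁻¹ = s * (c * θ * c⁻¹) := by rw [hb]; group
  have hb'c : s * (c * θ * c⁻¹) ∈ Subgroup.closure ({tr 1, b} : Set A) := by
    rw [← hb']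
    exact Subgroup.mul_mem _ (Subgroup.mul_mem _ hcc hbc) (Subgroup.inv_mem _ hcc)
  have cXθ : Commute (c⁻¹ * s * c) θ := hX.commute hθ dXY
  have cXs : Commute (c⁻¹ * s * c) s := hX.commute s2 dXY
  have cXZ : Commute (c⁻¹ * s * c) (c * θ * c⁻¹) := hX.commute hZ dXZ
  have cZθ : Commute (c * θ * c⁻¹) θ := hZ.commute hθ dZY
  have cZs : Commute (c * θ * c⁻¹) s := hZ.commute s2 dZY
  have hword := word_eq cXs cXZ cZθ cZs (e (j + 1))
  rw [← hb] at hword
  have cXα : Commute (c⁻¹ * s * c) ((s ^ e (j + 1))⁻¹ * θ * s ^ e (j + 1)) :=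
    ((cXs.pow_right _).inv_right.mul_right cXθ).mul_right (cXs.pow_right _)
  have hfin := comm_eq cXθ cXα
  rw [← hb, ← hword, key j] at hfin
  rw [← hfin]
  have hm : ((s * (c * θ * c⁻¹)) ^ e (j + 1))⁻¹ * b * (s * (c * θ * c⁻¹)) ^ e (j + 1) ∈
      Subgroup.closure ({tr 1, b} : Set A) :=
    Subgroup.mul_mem _ (Subgroup.mul_mem _ (Subgroup.inv_mem _ (Subgroup.pow_mem _ hb'c _)) hbc)
      (Subgroup.pow_mem _ hb'c _)
  exact Subgroup.mul_mem _ (Subgroup.mul_mem _ (Subgroup.mul_mem _ hm hbc)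
    (Subgroup.inv_mem _ hm)) (Subgroup.inv_mem _ hbc)

/-- The subgroup generated by the unit translation and the automorphisms supported in
`Per 0 4`. -/
def H : Subgroup A := Subgroup.closure ({tr 1} ∪ {h : A | Supp h (Per 0 4)})

lemma tr_mem_H : tr 1 ∈ H := Subgroup.subset_closure (Or.inl rfl)

lemma supp_mem_H {h : A} (hh : Supp h (Per 0 4)) : h ∈ H := Subgroup.subset_closure (Or.inr hh)

/-- Small displacement automorphisms are in `H`. -/
lemma small_mem (f : A) (hf : Disp f (1 / 2)) : f ∈ H := by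
  obtain ⟨u, u1, u2, u3⟩ := exists_bump 0 1 3 4 (by norm_num) (by norm_num) (by norm_num)
    (by norm_num)
  -- the middle sets
  let M : ℕ → Set ℝ := fun i => {x | ∃ k : ℤ, 3 / 2 + i + 60 * k ≤ x ∧ x ≤ 5 / 2 + i + 60 * k}
  have step : ∀ n : ℕ, ∃ g ∈ H, ∃ f' : A, f = g * f' ∧ Disp f' (1 / 2) ∧
      ∀ i < n, ∀ x ∈ M i, f' x = x := by
    intro n
    induction n with
    | zero => exact ⟨1, H.one_mem, f, by simp, hf, by intro i hi; omega⟩
    | succ n ih =>
      obtain ⟨g, hg, f', e1, e2, e3⟩ := ih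
      let un : A := tr 1 ^ n * u * (tr 1 ^ n)⁻¹
      have hun : ∀ x, un x = u (x - n) + n := by
        intro x
        simp only [un, mul_app, tr_pow_inv, tr_pow]
      have un1 : ∀ x, x ≤ un x := by
        intro x
        rw [hun]
        have := u1 (x - n)
        linarith
      let h := clip f' un
      have hmem : h ∈ H := by
        have h1 : Supp ((tr 1 ^ n)⁻¹ * h * (tr 1 ^ n)) (Per 0 4) := by
          intro x hx
          simp only [mul_app]
          have h2 : un ((tr 1 ^ n) x) = (tr 1 ^ n) x := by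
            simp only [un, mul_app, inv_app_self]
            rw [u2 x hx]
          rw [clip_fix h2, inv_app_self]
        have h2 : h = tr 1 ^ n * ((tr 1 ^ n)⁻¹ * h * (tr 1 ^ n)) * (tr 1 ^ n)⁻¹ := by group
        rw [h2]
        exact H.mul_mem (H.mul_mem (H.pow_mem tr_mem_H n) (supp_mem_H h1))
          (H.inv_mem (H.pow_mem tr_mem_H n))
      refine ⟨g * h, H.mul_mem hg hmem, h⁻¹ * f', ?_, ?_, ?_⟩
      · rw [e1]; group
      · intro x
        have hx := e2 x
        rw [abs_le] at hx ⊢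
        rcases le_total x (f' x) with hle | hle
        · have := rem_up un1 hle
          constructor <;> linarith [this.1, this.2]
        · have := rem_down un1 hle
          constructor <;> linarith [this.1, this.2]
      · intro i hi x hx
        rw [mul_app]
        rcases Nat.lt_succ_iff_lt_or_eq.mp hi with h3 | h3
        · have h4 := e3 i h3 x hx
          rw [h4]
          have h5 : h x = x := clip_of_fix un1 h4
          have := inv_app_self h x
          rwa [h5] at this
        · subst h3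
          obtain ⟨k, hk1, hk2⟩ := hx
          have hx := e2 x
          rw [abs_le] at hx
          have b1 : 3 + i + 60 * k ≤ un x := by
            rw [hun]
            have : u (1 + 60 * k) ≤ u (x - i) := u.monotone (by linarith)
            rw [u3] at this
            linarith
          have b2 : 3 + i + 60 * k ≤ un (x - 1 / 2) := by
            rw [hun]
            have : u (1 + 60 * k) ≤ u (x - 1 / 2 - i) := u.monotone (by linarith)
            rw [u3] at this
            linarith
          have b3 : un⁻¹ x ≤ x - 1 / 2 := by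
            have : un⁻¹ x ≤ un⁻¹ (un (x - 1 / 2)) := un⁻¹.monotone (by linarith)
            rwa [inv_app_self] at this
          have h5 : h x = f' x := by
            show clip f' un x = f' x
            rw [clip_app, min_eq_left (by linarith), max_eq_left (by linarith)]
          rw [← h5, inv_app_self]
  obtain ⟨g, hg, f', e1, e2, e3⟩ := step 60
  have : f' = 1 := by
    apply ext'
    intro x
    rw [one_app]
    let m : ℤ := ⌊x - 3 / 2⌋
    have hm1 : (m : ℝ) ≤ x - 3 / 2 := Int.floor_le _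
    have hm2 : x - 3 / 2 < m + 1 := Int.lt_floor_add_one _
    have hmod : m % 60 + 60 * (m / 60) = m := Int.emod_add_mul_ediv m 60
    have hnn : 0 ≤ m % 60 := Int.emod_nonneg _ (by norm_num)
    have hlt : m % 60 < 60 := Int.emod_lt_of_pos _ (by norm_num)
    obtain ⟨i, hi⟩ := Int.eq_ofNat_of_zero_le hnn
    rw [hi] at hmod hlt
    apply e3 i (by omega)
    have hcast : ((i : ℤ) : ℝ) + 60 * ((m / 60 : ℤ) : ℝ) = (m : ℝ) := by exact_mod_cast hmod
    rw [Int.cast_natCast] at hcast
    exact ⟨m / 60, by linarith, by linarith⟩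
  rw [e1, this, mul_one]
  exact hg

/-- Bounded displacement automorphisms are in `H`. -/
lemma bounded_mem (n : ℕ) : ∀ f : A, Disp f (n / 2) → f ∈ H := by
  induction n with
  | zero =>
    intro f hf
    apply small_mem
    intro x
    have := hf x
    simp only [Nat.cast_zero, zero_div] at this
    linarith
  | succ n ih =>
    intro f hf
    have u1 : ∀ x, x ≤ tr (1 / 2) x := by intro x; rw [tr_app]; linarith
    set h := clip f (tr (1 / 2)) with hh
    have happ : ∀ x, h x = max (min (f x) (x + 1 / 2)) (x - 1 / 2) := by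
      intro x; rw [hh, clip_app, tr_app, tr_inv]
    have h1 : h ∈ H := by
      apply small_mem
      intro x
      rw [happ, abs_le]
      constructor
      · have := le_max_right (min (f x) (x + 1 / 2)) (x - 1 / 2)
        linarith
      · have : max (min (f x) (x + 1 / 2)) (x - 1 / 2) ≤ x + 1 / 2 :=
          max_le (min_le_right _ _) (by linarith)
        linarith
    have h2 : h⁻¹ * f ∈ H := by
      apply ih
      intro x
      have hx := hf x
      push_cast at hx
      rw [abs_le] at hx ⊢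
      have hz : h ((h⁻¹ * f) x) = f x := by rw [mul_app, app_inv_self]
      set z := (h⁻¹ * f) x with hzdef
      have hn : (0 : ℝ) ≤ n := Nat.cast_nonneg n
      rcases le_total x (f x) with hle | hle
      · have hr := rem_up u1 hle
        rw [← hh, ← hzdef] at hr
        refine ⟨by linarith [hr.1], ?_⟩
        by_contra hc
        push Not at hc
        have hxz : x < z := by linarith
        have h3 : f x < f z := f.strictMono hxz
        have h4 : f x < z + 1 / 2 := by linarith [hx.2]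
        have h5 : f x < h z := by
          rw [happ]
          exact lt_of_lt_of_le (lt_min h3 h4) (le_max_left _ _)
        rw [hz] at h5
        exact lt_irrefl _ h5
      · have hr := rem_down u1 hle
        rw [← hh, ← hzdef] at hr
        refine ⟨?_, by linarith [hr.1]⟩
        by_contra hc
        push Not at hc
        have hxz : z < x := by linarith
        have h3 : f z < f x := f.strictMono hxz
        have h4 : z - 1 / 2 < f x := by linarith [hx.1]
        have h5 : h z < f x := by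
          rw [happ]
          exact max_lt (lt_of_le_of_lt (min_le_left _ _) h3) h4
        rw [hz] at h5
        exact lt_irrefl _ h5
    have : f = h * (h⁻¹ * f) := by group
    rw [this]
    exact H.mul_mem h1 h2

/-- An element of `H` needs only countably many automorphisms supported in `Per 0 4`. -/
lemma countable_support {f : A} (hf : f ∈ H) :
    ∃ T : Set A, T.Countable ∧ (∀ h ∈ T, Supp h (Per 0 4)) ∧
      f ∈ Subgroup.closure ({tr 1} ∪ T) := by
  induction hf using Subgroup.closure_induction with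
  | mem x hx =>
    rcases hx with hx | hx
    · exact ⟨∅, Set.countable_empty, by simp, Subgroup.subset_closure (Or.inl hx)⟩
    · exact ⟨{x}, Set.countable_singleton x, by simpa using hx,
        Subgroup.subset_closure (Or.inr rfl)⟩
  | one => exact ⟨∅, Set.countable_empty, by simp, Subgroup.one_mem _⟩
  | mul x y _ _ hx hy =>
    obtain ⟨T1, a1, a2, a3⟩ := hx
    obtain ⟨T2, b1, b2, b3⟩ := hy
    refine ⟨T1 ∪ T2, a1.union b1, ?_, Subgroup.mul_mem _ ?_ ?_⟩
    · rintro h (hh | hh)
      · exact a2 h hh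
      · exact b2 h hh
    · exact Subgroup.closure_mono (Set.union_subset_union_right _ Set.subset_union_left) a3
    · exact Subgroup.closure_mono (Set.union_subset_union_right _ Set.subset_union_right) b3
  | inv x _ hx =>
    obtain ⟨T1, a1, a2, a3⟩ := hx
    exact ⟨T1, a1, a2, Subgroup.inv_mem _ a3⟩

/-- Countably many bounded displacement automorphisms lie in a two-generated subgroup. -/
theorem bounded_two_gen (f : ℕ → A) (hf : ∀ n, f n ∈ H) :
    ∃ a b : A, ∀ n, f n ∈ Subgroup.closure ({a, b} : Set A) := by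
  choose T T1 T2 T3 using fun n => countable_support (hf n)
  have hC : ((⋃ n, T n) ∪ {1}).Countable :=
    (Set.countable_iUnion T1).union (Set.countable_singleton 1)
  obtain ⟨h, hh⟩ := hC.exists_eq_range ⟨1, Or.inr rfl⟩
  have hsupp : ∀ j, Supp (h j) (Per 0 4) := by
    intro j
    have : h j ∈ (⋃ n, T n) ∪ {1} := by rw [hh]; exact ⟨j, rfl⟩
    rcases this with h1 | h1
    · obtain ⟨n, hn⟩ := Set.mem_iUnion.mp h1
      exact T2 n _ hn
    · rw [Set.mem_singleton_iff] at h1
      rw [h1]
      intro x _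
      rfl
  obtain ⟨b, hb⟩ := encode h hsupp
  refine ⟨tr 1, b, fun n => ?_⟩
  have : Subgroup.closure ({tr 1} ∪ T n) ≤ Subgroup.closure ({tr 1, b} : Set A) := by
    rw [Subgroup.closure_le]
    rintro x (hx | hx)
    · rw [Set.mem_singleton_iff] at hx
      rw [hx]
      exact Subgroup.subset_closure (by simp)
    · have : x ∈ Set.range h := by
        rw [← hh]
        exact Or.inl (Set.mem_iUnion.mpr ⟨n, hx⟩)
      obtain ⟨j, rfl⟩ := this
      exact hb j
  exact this (T3 n)

/-- A rapidly growing sequence. -/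
lemma grow (f : ℕ → A) : ∃ xs : ℕ → ℝ, xs 0 = 0 ∧ (∀ k, xs k + 1 ≤ xs (k + 1)) ∧
    ∀ k, ∀ n ≤ k, f n (xs k) ≤ xs (k + 1) ∧ (f n)⁻¹ (xs k) ≤ xs (k + 1) := by
  have h : ∀ (k : ℕ) (x : ℝ), ∃ y, x + 1 ≤ y ∧ ∀ n ≤ k, f n x ≤ y ∧ (f n)⁻¹ x ≤ y := by
    intro k x
    induction k with
    | zero =>
      refine ⟨max (x + 1) (max (f 0 x) ((f 0)⁻¹ x)), le_max_left _ _, ?_⟩
      intro n hn
      have : n = 0 := by omega
      subst this
      exact ⟨(le_max_left _ _).trans (le_max_right _ _),
        (le_max_right _ _).trans (le_max_right _ _)⟩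
    | succ k ih =>
      obtain ⟨y, h1, h2⟩ := ih
      refine ⟨max y (max (f (k + 1) x) ((f (k + 1))⁻¹ x)), h1.trans (le_max_left _ _), ?_⟩
      intro n hn
      rcases Nat.lt_or_ge n (k + 1) with h3 | h3
      · have := h2 n (by omega)
        exact ⟨this.1.trans (le_max_left _ _), this.2.trans (le_max_left _ _)⟩
      · have : n = k + 1 := by omega
        subst this
        exact ⟨(le_max_left _ _).trans (le_max_right _ _),
          (le_max_right _ _).trans (le_max_right _ _)⟩
  choose Y Y1 Y2 using h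
  let xs : ℕ → ℝ := fun k => Nat.rec 0 (fun k x => Y k x) k
  exact ⟨xs, rfl, fun k => Y1 k (xs k), fun k => Y2 k (xs k)⟩

/-- Conjugation by `x ↦ -x`. -/
noncomputable def nf (f : A) : A :=
  mkA (fun x => -f (-x)) (fun x y h => neg_lt_neg (f.strictMono (neg_lt_neg h)))
    (fun y => ⟨-f⁻¹ (-y), by simp⟩)

lemma nf_app (f : A) (x : ℝ) : nf f x = -f (-x) := rfl

lemma nf_inv (f : A) (x : ℝ) : (nf f)⁻¹ x = -f⁻¹ (-x) := by
  have h := inv_app_self (nf f) (-f⁻¹ (-x))
  rw [nf_app, neg_neg, app_inv_self, neg_neg] at h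
  exact h

lemma step_le {X : ℤ → ℝ} (hX : ∀ k, X k + 1 ≤ X (k + 1)) {k l : ℤ} (h : k ≤ l) :
    X k + (l - k) ≤ X l := by
  obtain ⟨m, rfl⟩ := Int.exists_add_of_le h
  clear h
  induction m with
  | zero => simp
  | succ m ih =>
    have := hX (k + m)
    have e : k + ((m + 1 : ℕ) : ℤ) = k + m + 1 := by push_cast; ring
    rw [e]
    push_cast at ih ⊢
    linarith

/-- An automorphism of the line with prescribed values at the integers. -/
lemma exists_iso (X : ℤ → ℝ) (hX : ∀ k, X k + 1 ≤ X (k + 1)) : ∃ φ : A, ∀ k : ℤ, φ k = X k := by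
  let F : ℝ → ℝ := fun y => X ⌊y⌋ + Int.fract y * (X (⌊y⌋ + 1) - X ⌊y⌋)
  have hF : ∀ (k : ℤ) (t : ℝ), 0 ≤ t → t < 1 → F (k + t) = X k + t * (X (k + 1) - X k) := by
    intro k t h0 h1
    have h2 : ⌊(k : ℝ) + t⌋ = k := by
      rw [Int.floor_eq_iff]; constructor <;> linarith
    have h3 : Int.fract ((k : ℝ) + t) = t := by
      rw [Int.fract, h2]; ring
    simp only [F, h2, h3]
  have hmono : StrictMono F := by
    intro y z hyz
    have hy : y = (⌊y⌋ : ℝ) + Int.fract y := (Int.floor_add_fract y).symm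
    have hz : z = (⌊z⌋ : ℝ) + Int.fract z := (Int.floor_add_fract z).symm
    have y0 := Int.fract_nonneg y
    have y1 := Int.fract_lt_one y
    have z0 := Int.fract_nonneg z
    have z1 := Int.fract_lt_one z
    have hXy := hX ⌊y⌋
    have hXz := hX ⌊z⌋
    have hfl : ⌊y⌋ ≤ ⌊z⌋ := Int.floor_le_floor hyz.le
    show X ⌊y⌋ + Int.fract y * (X (⌊y⌋ + 1) - X ⌊y⌋) < X ⌊z⌋ + Int.fract z * (X (⌊z⌋ + 1) - X ⌊z⌋)
    rcases hfl.lt_or_eq with h | h
    · have h2 := step_le hX (show ⌊y⌋ + 1 ≤ ⌊z⌋ by omega)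
      have h3 : ((⌊y⌋ + 1 : ℤ) : ℝ) ≤ (⌊z⌋ : ℝ) := by exact_mod_cast h
      have h4 : X (⌊y⌋ + 1) ≤ X ⌊z⌋ := by linarith
      have h5 : 0 ≤ Int.fract z * (X (⌊z⌋ + 1) - X ⌊z⌋) := mul_nonneg z0 (by linarith)
      have h6 : Int.fract y * (X (⌊y⌋ + 1) - X ⌊y⌋) < 1 * (X (⌊y⌋ + 1) - X ⌊y⌋) :=
        mul_lt_mul_of_pos_right y1 (by linarith)
      linarith
    · rw [h]
      have h2 : Int.fract y < Int.fract z := by
        rw [Int.fract, Int.fract, h]; linarith
      have := mul_lt_mul_of_pos_right h2 (show 0 < X (⌊z⌋ + 1) - X ⌊z⌋ by linarith)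
      linarith
  have hsurj : Function.Surjective F := by
    intro x
    -- find `k` with `X k ≤ x < X (k + 1)`
    have hub : ∃ b : ℤ, ∀ k : ℤ, X k ≤ x → k ≤ b := by
      refine ⟨max 0 ⌈x - X 0⌉, fun k hk => ?_⟩
      rcases le_total k 0 with h | h
      · exact h.trans (le_max_left _ _)
      · apply le_trans _ (le_max_right _ _)
        have := step_le hX h
        have h2 : (k : ℝ) ≤ x - X 0 := by push_cast at this; linarith
        exact_mod_cast h2.trans (Int.le_ceil _)
    have hne : ∃ k : ℤ, X k ≤ x := by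
      refine ⟨min 0 ⌊x - X 0⌋, ?_⟩
      have h1 := step_le hX (min_le_left (0 : ℤ) ⌊x - X 0⌋)
      have h2 : ((min 0 ⌊x - X 0⌋ : ℤ) : ℝ) ≤ x - X 0 :=
        le_trans (by exact_mod_cast min_le_right _ _) (Int.floor_le _)
      push_cast at h1 h2
      linarith
    obtain ⟨k, hk1, hk2⟩ := Int.exists_greatest_of_bdd hub hne
    have hk3 : x < X (k + 1) := by
      by_contra hc
      push Not at hc
      have := hk2 _ hc
      omega
    have hpos : 0 < X (k + 1) - X k := by have := hX k; linarith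
    refine ⟨k + (x - X k) / (X (k + 1) - X k), ?_⟩
    rw [hF k _ (div_nonneg (by linarith) hpos.le) (by rw [div_lt_one hpos]; linarith),
      div_mul_cancel₀ _ hpos.ne']
    ring
  refine ⟨mkA F hmono hsurj, fun k => ?_⟩
  rw [mkA_apply]
  have := hF k 0 le_rfl one_pos
  rw [add_zero, zero_mul, add_zero] at this
  exact this

/-- **Main theorem.** Countably many order automorphisms of the line lie in a two-generated
group of order automorphisms. -/
theorem two_gen (f : ℕ → A) :
    ∃ a b : A, ∀ n, f n ∈ Subgroup.closure ({a, b} : Set A) := by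
  obtain ⟨xs, x0, x1, x2⟩ := grow f
  obtain ⟨ys, y0, y1, y2⟩ := grow (fun n => nf (f n))
  let X : ℤ → ℝ := fun k => match k with
    | Int.ofNat n => xs n
    | Int.negSucc n => -ys (n + 1)
  have Xp : ∀ n : ℕ, X n = xs n := fun n => rfl
  have Xn : ∀ n : ℕ, X (-(n : ℤ)) = -ys n := by
    intro n
    rcases n with _ | n
    · show X 0 = _
      have : X 0 = xs 0 := rfl
      rw [this, x0, y0, neg_zero]
    · rfl
  have hX : ∀ k, X k + 1 ≤ X (k + 1) := by
    intro k
    obtain ⟨n, rfl | rfl⟩ := k.eq_nat_or_neg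
    · have := x1 n
      rw [Xp]
      exact this
    · rcases n with _ | n
      · have h01 : X 0 + 1 ≤ X 1 := x1 0
        have e : (-((0 : ℕ) : ℤ)) = 0 := by simp
        rw [e, zero_add]
        exact h01
      · have := y1 n
        have e : (-((n + 1 : ℕ) : ℤ)) + 1 = -(n : ℤ) := by push_cast; ring
        rw [e, Xn, Xn]
        linarith
  -- the growth property
  have P : ∀ (n : ℕ) (k : ℤ), (n : ℤ) + 1 ≤ |k| → X (k - 1) ≤ f n (X k) ∧ f n (X k) ≤ X (k + 1) := by
    intro n k hk
    obtain ⟨m, rfl | rfl⟩ := k.eq_nat_or_neg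
    · rw [Nat.abs_cast] at hk
      rcases m with _ | m
      · omega
      · have h1 := (x2 (m + 1) n (by omega)).1
        have h2 := (x2 m n (by omega)).2
        have e : ((m + 1 : ℕ) : ℤ) - 1 = (m : ℤ) := by push_cast; ring
        rw [e, Xp, Xp]
        refine ⟨?_, h1⟩
        have := (f n).monotone h2
        rwa [app_inv_self] at this
    · rw [abs_neg, Nat.abs_cast] at hk
      rcases m with _ | m
      · omega
      · have h1 := (y2 (m + 1) n (by omega)).1
        have h2 := (y2 m n (by omega)).2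
        rw [nf_app] at h1
        rw [nf_inv] at h2
        have e : (-((m + 1 : ℕ) : ℤ)) + 1 = -(m : ℤ) := by push_cast; ring
        have e' : (-((m + 1 : ℕ) : ℤ)) - 1 = -((m + 1 + 1 : ℕ) : ℤ) := by push_cast; ring
        rw [e, e', Xn, Xn, Xn]
        refine ⟨by linarith, ?_⟩
        have h3 : -ys (m + 1) ≤ (f n)⁻¹ (-ys m) := by linarith
        have := (f n).monotone h3
        rwa [app_inv_self] at this
  obtain ⟨φ, hφ⟩ := exists_iso X hX
  have hφ' : ∀ k : ℤ, φ⁻¹ (X k) = k := by
    intro k; rw [← hφ, inv_app_self]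
  have hg : ∀ n, φ⁻¹ * f n * φ ∈ H := by
    intro n
    apply bounded_mem (4 * n + 10)
    set g := φ⁻¹ * f n * φ with hgdef
    have Q : ∀ k : ℤ, (n : ℤ) + 1 ≤ |k| → (k : ℝ) - 1 ≤ g k ∧ g k ≤ k + 1 := by
      intro k hk
      obtain ⟨h1, h2⟩ := P n k hk
      have e : g k = φ⁻¹ (f n (X k)) := by
        rw [hgdef, mul_app, mul_app, hφ]
      rw [e]
      have h3 := φ⁻¹.monotone h1
      have h4 := φ⁻¹.monotone h2
      rw [hφ'] at h3 h4
      push_cast at h3 h4
      exact ⟨h3, h4⟩
    intro y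
    have hn0 : (0 : ℝ) ≤ n := Nat.cast_nonneg n
    push_cast
    rw [abs_le]
    have hk1 : (⌊y⌋ : ℝ) ≤ y := Int.floor_le _
    have hk2 : y < ⌊y⌋ + 1 := Int.lt_floor_add_one _
    by_cases hy : (n : ℤ) + 1 ≤ |⌊y⌋| ∧ (n : ℤ) + 1 ≤ |⌊y⌋ + 1|
    · have h1 := (Q _ hy.1).1
      have h2 := (Q _ hy.2).2
      have h3 : g ⌊y⌋ ≤ g y := g.monotone hk1
      have h4 : g y ≤ g ((⌊y⌋ + 1 : ℤ) : ℝ) := g.monotone (by push_cast; linarith)
      push_cast at h2 h4
      constructor <;> linarith
    · have hb : -((n : ℤ) + 2) ≤ ⌊y⌋ ∧ ⌊y⌋ + 1 ≤ (n : ℤ) + 2 := by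
        by_contra hc
        apply hy
        rw [not_and_or, not_le, not_le] at hc
        constructor
        · rw [le_abs]; omega
        · rw [le_abs]; omega
      have b1 : -((n : ℝ) + 2) ≤ ⌊y⌋ := by exact_mod_cast hb.1
      have b2 : (⌊y⌋ : ℝ) + 1 ≤ (n : ℝ) + 2 := by exact_mod_cast hb.2
      have h1 := (Q (-((n : ℤ) + 2)) (by rw [abs_neg, le_abs]; omega)).1
      have h2 := (Q ((n : ℤ) + 2) (by rw [le_abs]; omega)).2
      have h3 : g ((-((n : ℤ) + 2) : ℤ) : ℝ) ≤ g y := g.monotone (by push_cast; linarith)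
      have h4 : g y ≤ g (((n : ℤ) + 2 : ℤ) : ℝ) := g.monotone (by push_cast; linarith)
      push_cast at h1 h2 h3 h4
      constructor <;> linarith
  obtain ⟨a, b, hab⟩ := bounded_two_gen _ hg
  refine ⟨φ * a * φ⁻¹, φ * b * φ⁻¹, fun n => ?_⟩
  have h1 : (Subgroup.closure ({a, b} : Set A)).map (MulAut.conj φ).toMonoidHom ≤
      Subgroup.closure ({φ * a * φ⁻¹, φ * b * φ⁻¹} : Set A) := by
    rw [MonoidHom.map_closure, Subgroup.closure_le]
    rintro _ ⟨x, hx, rfl⟩
    apply Subgroup.subset_closure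
    rcases hx with hx | hx
    · left; rw [hx]; rfl
    · right; rw [Set.mem_singleton_iff] at hx; rw [hx]; rfl
  have h2 : f n = (MulAut.conj φ).toMonoidHom (φ⁻¹ * f n * φ) := by
    show f n = φ * (φ⁻¹ * f n * φ) * φ⁻¹
    group
  rw [h2]
  exact h1 (Subgroup.mem_map_of_mem _ (hab n))

/-- The homomorphism to permutations. -/
def toPerm : A →* Equiv.Perm ℝ where
  toFun f := f.toEquiv
  map_one' := rfl
  map_mul' _ _ := rfl

lemma toPerm_app (f : A) (x : ℝ) : toPerm f x = f x := rfl

/-- The statement about increasing permutations of the real line. -/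
theorem perm_two_gen (S : Set (Equiv.Perm ℝ)) (hS : S.Countable) (hm : ∀ σ ∈ S, StrictMono ⇑σ) :
    ∃ f g : Equiv.Perm ℝ, StrictMono ⇑f ∧ StrictMono ⇑g ∧
      S ⊆ (Subgroup.closure ({f, g} : Set (Equiv.Perm ℝ)) : Set (Equiv.Perm ℝ)) := by
  have hC : (S ∪ {1}).Countable := hS.union (Set.countable_singleton 1)
  obtain ⟨e, he⟩ := hC.exists_eq_range ⟨1, Or.inr rfl⟩
  have hmono : ∀ n, StrictMono ⇑(e n) := by
    intro n
    have : e n ∈ S ∪ {1} := by rw [he]; exact ⟨n, rfl⟩
    rcases this with h | h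
    · exact hm _ h
    · rw [Set.mem_singleton_iff] at h
      rw [h]
      exact strictMono_id
  let f : ℕ → A := fun n => mkA (e n) (hmono n) (e n).surjective
  have hf : ∀ n, toPerm (f n) = e n := by
    intro n
    ext x
    rfl
  obtain ⟨a, b, hab⟩ := two_gen f
  refine ⟨toPerm a, toPerm b, a.strictMono, b.strictMono, ?_⟩
  intro σ hσ
  have : σ ∈ Set.range e := by rw [← he]; exact Or.inl hσ
  obtain ⟨n, rfl⟩ := this
  rw [← hf n]
  have h1 : (Subgroup.closure ({a, b} : Set A)).map toPerm =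
      Subgroup.closure ({toPerm a, toPerm b} : Set (Equiv.Perm ℝ)) := by
    rw [MonoidHom.map_closure, Set.image_pair]
  rw [← h1]
  exact Subgroup.mem_map_of_mem _ (hab n)

end Pool.Agent.TH555.TwoGen
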