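import Pool.Agent.TH555.Double

set_option autoImplicit false

open Set Manifold Topology MeasureTheory intervalIntegral

namespace Pool.Agent.TH555.Detect

/-- The real function on `[0,1]` of a self map of the interval. -/
noncomputable def rl (f : I01 → I01) (t : ℝ) : ℝ := (f (projIcc 0 1 zero_le_one t) : ℝ)

lemma rl_coe (f : I01 → I01) (t : I01) : rl f t = f t := by
  show (f (projIcc 0 1 zero_le_one (t : ℝ)) : ℝ) = f t
  rw [projIcc_val]

lemma rl_contDiffOn {n : WithTop ℕ∞} {f : I01 → I01} (hf : ContMDiff (𝓡∂ 1) (𝓡∂ 1) n f) :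
    ContDiffOn ℝ n (rl f) (Icc 0 1) := by
  have h1 : ContMDiff (𝓡∂ 1) 𝓘(ℝ, ℝ) n (fun t => (f t : ℝ)) :=
    contMDiff_subtypeVal_Icc.comp hf
  have h2 := h1.comp_contMDiffOn (contMDiffOn_projIcc (x := (0 : ℝ)) (y := 1) (n := n))
  rw [contMDiffOn_iff_contDiffOn] at h2
  exact h2

/-- Descending identities to the circle: it is enough to know `dbl f` lifts on `[0,1]` to an
odd map. -/
lemma lift_of {f : I01 → I01} (hf : EP f) {Ft : ℝ → ℝ} (h1 : ∀ t : I01, Ft t = f t)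
    (h2 : ∀ t, ((Ft (-t) : ℝ) : C2) = -((Ft t : ℝ) : C2))
    (h3 : ∀ t, ((Ft (t + 2) : ℝ) : C2) = ((Ft t : ℝ) : C2)) (t : ℝ) :
    dbl f (t : C2) = (Ft t : C2) := by
  let g : ℝ → C2 × C2 := fun t => (dbl f (t : C2), (Ft t : C2))
  have hg : Function.Periodic g 2 := by
    intro t
    show (dbl f ((t + 2 : ℝ) : C2), ((Ft (t + 2) : ℝ) : C2)) = _
    rw [h3, AddCircle.coe_add, coe_two, add_zero]
  obtain ⟨s, hs, hs'⟩ := hg.exists_mem_Ico (by norm_num) t (-1)
  have e1 : dbl f (t : C2) = dbl f (s : C2) := congrArg Prod.fst hs'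
  have e2 : (Ft t : C2) = (Ft s : C2) := congrArg Prod.snd hs'
  rw [e1, e2]
  have hs2 : s ≤ 1 := by linarith [hs.2]
  rcases le_total 0 s with h | h
  · have := dbl_coe f ⟨s, h, hs2⟩
    rw [← h1] at this
    exact this
  · have := dbl_neg hf ⟨-s, by linarith, by linarith [hs.1]⟩
    rw [← h1] at this
    simp only at this
    rw [← AddCircle.coe_neg, neg_neg, ← h2, neg_neg] at this
    exact this

/-- The double of a `C^1` diffeomorphism of the interval has a `C^1` lift. -/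
lemma exists_lift_one {f : I01 → I01} (hep : EP f) (hf : ContMDiff (𝓡∂ 1) (𝓡∂ 1) 1 f) :
    ∃ Ft : ℝ → ℝ, ContDiff ℝ 1 Ft ∧ ∀ t : ℝ, dbl f (t : C2) = (Ft t : C2) := by
  have hr : ContDiffOn ℝ 1 (rl f) (Icc 0 1) := rl_contDiffOn hf
  let φ : ℝ → ℝ := derivWithin (rl f) (Icc 0 1)
  have hφ : ContinuousOn φ (Icc 0 1) :=
    hr.continuousOn_derivWithin (uniqueDiffOn_Icc zero_lt_one) le_rfl
  let Φ : ℝ → ℝ := fun t => φ (fold (t : C2))
  have hΦ : Continuous Φ := by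
    have h1 : Continuous (fun t : ℝ => ‖(t : C2)‖) :=
      continuous_norm.comp (AddCircle.continuous_mk' (2 : ℝ))
    exact hφ.comp_continuous h1 (fun t => (fold (t : C2)).2)
  have hΦI : ∀ t : I01, Φ t = φ t := by
    intro t
    show φ (fold ((t : ℝ) : C2)) = _
    rw [fold_coe]
  have hΦneg : ∀ t, Φ (-t) = Φ t := by
    intro t
    show φ (fold ((-t : ℝ) : C2)) = φ (fold (t : C2))
    rw [AddCircle.coe_neg, fold_neg]
  have hΦper : Function.Periodic Φ 2 := by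
    intro t
    show φ (fold ((t + 2 : ℝ) : C2)) = φ (fold (t : C2))
    rw [AddCircle.coe_add, coe_two, add_zero]
  have hint : ∀ a b, IntervalIntegrable Φ volume a b := fun a b => hΦ.intervalIntegrable a b
  let Ft : ℝ → ℝ := fun t => (f 0 : ℝ) + ∫ s in (0 : ℝ)..t, Φ s
  have hder : ∀ t, HasDerivAt Ft (Φ t) t := by
    intro t
    have := (integral_hasDerivAt_right (hint 0 t) (hΦ.stronglyMeasurableAtFilter _ _)
      hΦ.continuousAt)
    exact this.const_add _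
  have hFt : ContDiff ℝ 1 Ft := by
    rw [contDiff_one_iff_deriv]
    refine ⟨fun t => (hder t).differentiableAt, ?_⟩
    have : deriv Ft = Φ := funext fun t => (hder t).deriv
    rw [this]
    exact hΦ
  have hI : ∀ t : I01, Ft t = f t := by
    intro t
    have h1 : ∫ s in (0 : ℝ)..t, Φ s = rl f t - rl f 0 := by
      apply integral_eq_sub_of_hasDerivAt_of_le t.2.1
      · exact hr.continuousOn.mono (Icc_subset_Icc_right t.2.2)
      · intro s hs
        have hs1 : s ∈ Ioo (0 : ℝ) 1 := ⟨hs.1, lt_of_lt_of_le hs.2 t.2.2⟩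
        have hnb : Icc (0 : ℝ) 1 ∈ 𝓝 s := Icc_mem_nhds hs1.1 hs1.2
        have e : Φ s = φ s := hΦI ⟨s, hs1.1.le, hs1.2.le⟩
        rw [e]
        have hd : DifferentiableAt ℝ (rl f) s :=
          (hr.differentiableOn one_ne_zero s (Ioo_subset_Icc_self hs1)).differentiableAt hnb
        have h5 : φ s = deriv (rl f) s := derivWithin_of_mem_nhds hnb
        rw [h5]
        exact hd.hasDerivAt
      · exact hint 0 t
    show (f 0 : ℝ) + ∫ s in (0 : ℝ)..t, Φ s = f t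
    have h2 : rl f 0 = f 0 := rl_coe f 0
    rw [h1, rl_coe, h2]
    ring
  have hneg : ∀ t, Ft (-t) = 2 * (f 0 : ℝ) - Ft t := by
    intro t
    have h1 : ∫ s in (0 : ℝ)..(-t), Φ s = -∫ s in (0 : ℝ)..t, Φ s := by
      have h2 : ∫ s in (0 : ℝ)..t, Φ (-s) = ∫ s in (-t)..(-0), Φ s :=
        intervalIntegral.integral_comp_neg (fun s => Φ s)
      simp only [hΦneg, neg_zero] at h2
      rw [h2, integral_symm]
    show (f 0 : ℝ) + ∫ s in (0 : ℝ)..(-t), Φ s = 2 * (f 0 : ℝ) - ((f 0 : ℝ) + ∫ s in (0 : ℝ)..t, Φ s)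
    rw [h1]; ring
  have hper : ∀ t, Ft (t + 2) = Ft t + 2 * ((f 1 : ℝ) - f 0) := by
    intro t
    have h1 : (∫ s in (0 : ℝ)..(t + 2), Φ s) - ∫ s in (0 : ℝ)..t, Φ s = ∫ s in t..(t + 2), Φ s :=
      integral_interval_sub_left (hint _ _) (hint _ _)
    have h2 : ∫ s in t..(t + 2), Φ s = ∫ s in (-1 : ℝ)..(-1 + 2), Φ s :=
      hΦper.intervalIntegral_add_eq t (-1)
    have h3 : (-1 : ℝ) + 2 = 1 := by norm_num
    rw [h3] at h2
    have h4 : (∫ s in (0 : ℝ)..1, Φ s) - ∫ s in (0 : ℝ)..(-1), Φ s = ∫ s in (-1 : ℝ)..1, Φ s :=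
      integral_interval_sub_left (hint _ _) (hint _ _)
    have h5 := hneg 1
    have h6 := hI 1
    have h6' : Ft 1 = f 1 := h6
    show (f 0 : ℝ) + ∫ s in (0 : ℝ)..(t + 2), Φ s =
      ((f 0 : ℝ) + ∫ s in (0 : ℝ)..t, Φ s) + 2 * ((f 1 : ℝ) - f 0)
    have h7 : Ft 1 = (f 0 : ℝ) + ∫ s in (0 : ℝ)..1, Φ s := rfl
    have h8 : Ft (-1) = (f 0 : ℝ) + ∫ s in (0 : ℝ)..(-1), Φ s := rfl
    linarith
  have hc0 : ((2 * (f 0 : ℝ) : ℝ) : C2) = 0 := by
    rcases hep.1 with h | h <;> rw [h]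
    · simp
    · rw [mul_one, coe_two]
  have hc1 : ((2 * (f 1 : ℝ) : ℝ) : C2) = 0 := by
    rcases hep.2 with h | h <;> rw [h]
    · simp
    · rw [mul_one, coe_two]
  refine ⟨Ft, hFt, lift_of hep hI ?_ ?_⟩
  · intro t
    rw [hneg, AddCircle.coe_sub, hc0, zero_sub]
  · intro t
    rw [hper, mul_sub, AddCircle.coe_add, AddCircle.coe_sub, hc0, hc1, sub_zero, add_zero]

/-- **Doubling.** A group acting faithfully by `C^1` diffeomorphisms on the interval acts
faithfully by `C^1` diffeomorphisms on the circle. -/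
theorem double_one {G : Type*} [Group G] (ρ : G →* Equiv.Perm I01) (hinj : Function.Injective ρ)
    (hρ : ∀ g, ContMDiff (𝓡∂ 1) (𝓡∂ 1) 1 (ρ g)) :
    ∃ ρ' : G →* Equiv.Perm C2, Function.Injective ρ' ∧
      ∀ g, ContMDiff (𝓡∂ 1) (𝓡∂ 1) 1 (ρ' g) := by
  have hep : ∀ g, EP (ρ g) := fun g => ep_of_continuous (hρ g).continuous (ρ g).bijective
  obtain ⟨ρ', h1, h2⟩ := exists_double ρ hinj hep
  refine ⟨ρ', h1, fun g => ?_⟩
  obtain ⟨Ft, hFt, h3⟩ := exists_lift_one (hep g) (hρ g)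
  apply contMDiff_of_lift hFt
  intro t
  rw [h2, h3]

end Pool.Agent.TH555.Detect
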