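import Mathlib

set_option autoImplicit false

open Set Manifold Topology

namespace Pool.Agent.TH555.Detect

/-- The circle `ℝ / 2ℤ`. -/
abbrev C2 := AddCircle (2 : ℝ)

instance fact2 : Fact ((0 : ℝ) < 2) := ⟨by norm_num⟩

/-- The half line. -/
abbrev H1 := EuclideanHalfSpace 1

/-- The point of the half line with coordinate `max t 0`. -/
noncomputable def pt (t : ℝ) : H1 := ⟨WithLp.toLp 2 fun _ => max t 0, le_max_right _ _⟩

lemma pt_coord {t : ℝ} (ht : 0 ≤ t) : (pt t).1 0 = t := max_eq_left ht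

lemma pt_of_coord (z : H1) : pt (z.1 0) = z := by
  apply Subtype.ext
  ext i
  rw [Subsingleton.elim i 0]
  exact max_eq_left z.2

lemma continuous_pt : Continuous pt := by
  unfold pt
  fun_prop

lemma continuous_coord : Continuous (fun z : H1 => z.1 0) := by
  fun_prop

/-- The interval `(a, a+2)` as an open piece of the half line. -/
noncomputable def jmap (a : ℝ) : OpenPartialHomeomorph ℝ H1 where
  source := Ioo a (a + 2)
  target := {z | 0 < z.1 0 ∧ z.1 0 < 2}
  toFun x := pt (x - a)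
  invFun z := z.1 0 + a
  map_source' := by
    intro x hx
    have : (pt (x - a)).1 0 = x - a := pt_coord (by linarith [hx.1])
    show 0 < (pt (x - a)).1 0 ∧ (pt (x - a)).1 0 < 2
    rw [this]
    constructor <;> linarith [hx.1, hx.2]
  map_target' := by
    intro z hz
    have h1 := hz.1
    have h2 := hz.2
    constructor <;> linarith
  left_inv' := by
    intro x hx
    have : (pt (x - a)).1 0 = x - a := pt_coord (by linarith [hx.1])
    show (pt (x - a)).1 0 + a = x
    rw [this]; ring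
  right_inv' := by
    intro z hz
    show pt (z.1 0 + a - a) = z
    rw [add_sub_cancel_right, pt_of_coord]
  open_source := isOpen_Ioo
  open_target := (isOpen_lt continuous_const continuous_coord).inter (isOpen_lt continuous_coord continuous_const)
  continuousOn_toFun := (continuous_pt.comp (continuous_id.sub continuous_const)).continuousOn
  continuousOn_invFun := (continuous_coord.add continuous_const).continuousOn

/-- The chart of the circle on the complement of the class of `a`. -/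
noncomputable def cht (a : ℝ) : OpenPartialHomeomorph C2 H1 :=
  (AddCircle.openPartialHomeomorphCoe (2 : ℝ) a).symm.trans (jmap a)

lemma cht_source (a : ℝ) : (cht a).source = {(a : C2)}ᶜ := by
  ext x
  simp only [cht, OpenPartialHomeomorph.trans_source, OpenPartialHomeomorph.symm_source,
    AddCircle.openPartialHomeomorphCoe_target, mem_inter_iff]
  constructor
  · exact fun h => h.1
  · intro h
    refine ⟨h, ?_⟩
    exact (AddCircle.openPartialHomeomorphCoe (2 : ℝ) a).map_target (by simpa using h)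

lemma cht_coe {a t : ℝ} (ht : t ∈ Ioo a (a + 2)) : cht a (t : C2) = pt (t - a) := by
  have : (AddCircle.openPartialHomeomorphCoe (2 : ℝ) a).symm (t : C2) = t :=
    (AddCircle.openPartialHomeomorphCoe (2 : ℝ) a).left_inv (by simpa using ht)
  show jmap a ((AddCircle.openPartialHomeomorphCoe (2 : ℝ) a).symm (t : C2)) = _
  rw [this]
  rfl

lemma cht_symm (a : ℝ) (z : H1) : (cht a).symm z = ((z.1 0 + a : ℝ) : C2) := rfl

lemma cht_target (a : ℝ) : (cht a).target = {z | 0 < z.1 0 ∧ z.1 0 < 2} := by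
  ext z
  simp only [cht, OpenPartialHomeomorph.trans_target, mem_inter_iff]
  constructor
  · exact fun h => h.1
  · intro h
    refine ⟨h, ?_⟩
    show (jmap a).symm z ∈ Ioo a (a + 2)
    exact (jmap a).map_target h

/-- Real lift of a point of the circle. -/
noncomputable def rep (x : C2) : ℝ := AddCircle.equivIco (2 : ℝ) 0 x

lemma coe_rep (x : C2) : ((rep x : ℝ) : C2) = x := (AddCircle.equivIco (2 : ℝ) 0).symm_apply_apply x

lemma coe_ne_of {t s : ℝ} (h1 : s < t) (h2 : t < s + 2) : (t : C2) ≠ (s : C2) := by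
  intro h
  have := (AddCircle.coe_eq_coe_iff_of_mem_Ico (p := (2 : ℝ)) (a := s) (x := t) (y := s)
    ⟨h1.le, h2⟩ ⟨le_rfl, by linarith⟩).1 h
  linarith

noncomputable instance chartedC2 : ChartedSpace H1 C2 where
  atlas := range cht
  chartAt x := cht (rep x - 1)
  mem_chart_source x := by
    rw [cht_source]
    intro h
    have h' : x = ((rep x - 1 : ℝ) : C2) := h
    conv_lhs at h' => rw [← coe_rep x]
    exact coe_ne_of (by linarith) (by linarith) h'
  chart_mem_atlas x := mem_range_self _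

lemma model_symm_coord {z : EuclideanSpace ℝ (Fin 1)} (hz : 0 ≤ z 0) :
    ((𝓡∂ 1).symm z).1 0 = z 0 := by
  rw [modelWithCornersEuclideanHalfSpace_symm_apply]
  simp [hz]

lemma exists_lift_Ioo {x : C2} {b : ℝ} (hx : x ≠ (b : C2)) :
    ∃ s ∈ Ioo b (b + 2), (s : C2) = x := by
  refine ⟨(AddCircle.openPartialHomeomorphCoe (2 : ℝ) b).symm x, ?_, ?_⟩
  · exact (AddCircle.openPartialHomeomorphCoe (2 : ℝ) b).map_target (by simpa using hx)
  · exact (AddCircle.openPartialHomeomorphCoe (2 : ℝ) b).right_inv (by simpa using hx)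

lemma coe_add_of {t c : ℝ} (hc : (c : C2) = 0) : ((t + c : ℝ) : C2) = (t : C2) := by
  rw [AddCircle.coe_add, hc, add_zero]

lemma transition (n : WithTop ℕ∞) (a b : ℝ) :
    ContDiffOn ℝ n ((𝓡∂ 1) ∘ (cht a).symm ≫ₕ cht b ∘ (𝓡∂ 1).symm)
      ((𝓡∂ 1).symm ⁻¹' ((cht a).symm ≫ₕ cht b).source ∩ range (𝓡∂ 1)) := by
  intro z0 hz00
  obtain ⟨hz0, hr0⟩ := id hz00
  have hnn : ∀ z ∈ range (𝓡∂ 1), 0 ≤ z 0 := by
    intro z hz
    rw [range_modelWithCornersEuclideanHalfSpace] at hz
    exact hz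
  have h00 := hnn z0 hr0
  rw [mem_preimage, OpenPartialHomeomorph.trans_source, OpenPartialHomeomorph.symm_source,
    cht_target] at hz0
  obtain ⟨-, hb⟩ := hz0
  rw [mem_preimage, cht_source, cht_symm, model_symm_coord h00] at hb
  obtain ⟨s0, hs0, hs0'⟩ := exists_lift_Ioo hb
  set c : ℝ := s0 - (z0 0 + a) with hc
  have hc0 : (c : C2) = 0 := by
    rw [hc, AddCircle.coe_sub, hs0', sub_self]
  have hsm : ContDiff ℝ n (fun z : EuclideanSpace ℝ (Fin 1) =>
      (WithLp.toLp 2 (fun _ : Fin 1 => z 0 + (a + c - b)) : EuclideanSpace ℝ (Fin 1))) := by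
    apply contDiff_euclidean.2
    intro i
    fun_prop
  refine hsm.contDiffAt.contDiffWithinAt.congr_of_eventuallyEq_of_mem ?_ hz00
  have hcont : ContinuousAt (fun z : EuclideanSpace ℝ (Fin 1) => z 0 + (a + c)) z0 := by fun_prop
  have hmem : Ioo b (b + 2) ∈ 𝓝 (z0 0 + (a + c)) := by
    apply isOpen_Ioo.mem_nhds
    have : z0 0 + (a + c) = s0 := by rw [hc]; ring
    rw [this]
    exact hs0
  have hev := hcont.eventually hmem
  filter_upwards [self_mem_nhdsWithin, nhdsWithin_le_nhds hev] with z hz hz'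
  have h0 := hnn z hz.2
  show ((cht b) ((cht a).symm ((𝓡∂ 1).symm z))).1 = _
  rw [cht_symm, model_symm_coord h0]
  have e : ((z 0 + a : ℝ) : C2) = ((z 0 + (a + c) : ℝ) : C2) := by
    have : z 0 + (a + c) = (z 0 + a) + c := by ring
    rw [this, coe_add_of hc0]
  rw [e, cht_coe hz']
  ext i
  rw [Subsingleton.elim i 0]
  have h1 : (pt (z 0 + (a + c) - b)).1 0 = z 0 + (a + c) - b := pt_coord (by linarith [hz'.1])
  rw [h1]
  show _ = z 0 + (a + c - b)
  ring

instance manifoldC2 (n : WithTop ℕ∞) : IsManifold (𝓡∂ 1) n C2 := by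
  apply isManifold_of_contDiffOn
  rintro e e' ⟨a, rfl⟩ ⟨b, rfl⟩
  exact transition n a b

lemma continuous_of_lift {F : C2 → C2} {Ft : ℝ → ℝ} (hFt : Continuous Ft)
    (h : ∀ t : ℝ, F (t : C2) = (Ft t : C2)) : Continuous F := by
  have hq : IsQuotientMap ((↑) : ℝ → C2) := QuotientAddGroup.isQuotientMap_mk _
  rw [hq.continuous_iff]
  have : F ∘ ((↑) : ℝ → C2) = fun t => ((Ft t : ℝ) : C2) := funext h
  rw [this]
  exact (AddCircle.continuous_mk' (2 : ℝ)).comp hFt

/-- A self-map of the circle with a `C^n` lift is `C^n`. -/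
lemma contMDiff_of_lift {n : WithTop ℕ∞} {F : C2 → C2} {Ft : ℝ → ℝ} (hFt : ContDiff ℝ n Ft)
    (h : ∀ t : ℝ, F (t : C2) = (Ft t : C2)) : ContMDiff (𝓡∂ 1) (𝓡∂ 1) n F := by
  intro x
  rw [contMDiffAt_iff]
  refine ⟨(continuous_of_lift hFt.continuous h).continuousAt, ?_⟩
  obtain ⟨a, ha⟩ : ∃ a, a = rep x - 1 := ⟨_, rfl⟩
  obtain ⟨b, hb⟩ : ∃ b, b = rep (F x) - 1 := ⟨_, rfl⟩
  have e1 : extChartAt (𝓡∂ 1) x = (cht a).extend (𝓡∂ 1) := by rw [ha]; rfl
  have e2 : extChartAt (𝓡∂ 1) (F x) = (cht b).extend (𝓡∂ 1) := by rw [hb]; rfl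
  rw [e1, e2]
  have hx0 : ((rep x : ℝ) : C2) = x := coe_rep x
  have hra : rep x ∈ Ioo a (a + 2) := by rw [ha]; constructor <;> linarith
  have hcx : cht a x = pt (rep x - a) := by
    conv_lhs => rw [← hx0]
    exact cht_coe hra
  have hz0 : ((cht a).extend (𝓡∂ 1)) x = (pt (rep x - a)).1 := by
    rw [OpenPartialHomeomorph.extend_coe]
    show (cht a x).1 = _
    rw [hcx]
  rw [hz0]
  set z0 : EuclideanSpace ℝ (Fin 1) := (pt (rep x - a)).1 with hz0def
  have hz00 : z0 0 = rep x - a := pt_coord (by linarith [hra.1])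
  have hmemr : z0 ∈ range (𝓡∂ 1) := by
    rw [range_modelWithCornersEuclideanHalfSpace]
    show 0 ≤ z0 0
    rw [hz00]
    linarith [hra.1]
  set c : ℝ := rep (F x) - Ft (rep x) with hc
  have hc0 : (c : C2) = 0 := by
    rw [hc, AddCircle.coe_sub, coe_rep, ← h, coe_rep, sub_self]
  have hsm : ContDiff ℝ n (fun z : EuclideanSpace ℝ (Fin 1) =>
      (WithLp.toLp 2 (fun _ : Fin 1 => Ft (z 0 + a) + (c - b)) : EuclideanSpace ℝ (Fin 1))) := by
    apply contDiff_euclidean.2
    intro i
    have : ContDiff ℝ n (fun z : EuclideanSpace ℝ (Fin 1) => z 0 + a) := by fun_prop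
    exact (hFt.comp this).add contDiff_const
  refine hsm.contDiffAt.contDiffWithinAt.congr_of_eventuallyEq_of_mem ?_ hmemr
  have hcont : ContinuousAt (fun z : EuclideanSpace ℝ (Fin 1) => Ft (z 0 + a) + c) z0 := by
    have := hFt.continuous
    fun_prop
  have hmem : Ioo b (b + 2) ∈ 𝓝 (Ft (z0 0 + a) + c) := by
    apply isOpen_Ioo.mem_nhds
    have : Ft (z0 0 + a) + c = rep (F x) := by
      rw [hz00, sub_add_cancel, hc]; ring
    rw [this, hb]
    constructor <;> linarith
  have hev := hcont.eventually hmem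
  filter_upwards [self_mem_nhdsWithin, nhdsWithin_le_nhds hev] with z hz hz'
  have h0 : 0 ≤ z 0 := by
    rw [range_modelWithCornersEuclideanHalfSpace] at hz
    exact hz
  show ((cht b) (F ((cht a).symm ((𝓡∂ 1).symm z)))).1 = _
  rw [cht_symm, model_symm_coord h0, h]
  have e : ((Ft (z 0 + a) : ℝ) : C2) = ((Ft (z 0 + a) + c : ℝ) : C2) := by
    rw [coe_add_of hc0]
  rw [e, cht_coe hz']
  ext i
  rw [Subsingleton.elim i 0]
  have h1 : (pt (Ft (z 0 + a) + c - b)).1 0 = Ft (z 0 + a) + c - b := pt_coord (by linarith [hz'.1])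
  rw [h1]
  show _ = Ft (z 0 + a) + (c - b)
  ring

/-- The circle is not homeomorphic to the interval. -/
lemma not_homeo (e : Icc (0 : ℝ) 1 ≃ₜ C2) : False := by
  let u : ℝ → ℝ := fun t => (e.symm (t : C2) : ℝ)
  have hu : Continuous u :=
    continuous_subtype_val.comp (e.symm.continuous.comp (AddCircle.continuous_mk' (2 : ℝ)))
  have hinj : ∀ s t : ℝ, s < t → t < s + 2 → u s ≠ u t := by
    intro s t h1 h2 h
    have h3 : e.symm (s : C2) = e.symm (t : C2) := Subtype.ext h
    exact coe_ne_of h1 h2 (e.symm.injective h3).symm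
  have hper : u 0 = u 2 := by
    show ((e.symm ((0 : ℝ) : C2) : Icc (0 : ℝ) 1) : ℝ) = e.symm ((2 : ℝ) : C2)
    rw [AddCircle.coe_period, AddCircle.coe_zero]
  have h01 : u 0 ≠ u 1 := hinj 0 1 (by norm_num) (by norm_num)
  set m : ℝ := (u 0 + u 1) / 2 with hm
  have hm1 : m ∈ uIcc (u 0) (u 1) := by
    rw [mem_uIcc]
    rcases le_total (u 0) (u 1) with h | h
    · left; constructor <;> linarith
    · right; constructor <;> linarith
  have hm2 : m ∈ uIcc (u 1) (u 2) := by
    rw [← hper, uIcc_comm]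
    exact hm1
  obtain ⟨s, hs, hs'⟩ := intermediate_value_uIcc (f := u) (a := 0) (b := 1) hu.continuousOn hm1
  obtain ⟨t, ht, ht'⟩ := intermediate_value_uIcc (f := u) (a := 1) (b := 2) hu.continuousOn hm2
  rw [uIcc_of_le (by norm_num)] at hs ht
  have hs1 : s ≠ 1 := by
    intro h
    rw [h] at hs'
    apply h01
    linarith
  have ht1 : t ≠ 1 := by
    intro h
    rw [h] at ht'
    apply h01
    linarith
  have hs0 : s ≠ 0 := by
    intro h
    rw [h] at hs'
    apply h01
    linarith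
  have hs2 : s < 1 := lt_of_le_of_ne hs.2 hs1
  have ht2 : 1 < t := lt_of_le_of_ne ht.1 (Ne.symm ht1)
  have hs3 : 0 < s := lt_of_le_of_ne hs.1 (Ne.symm hs0)
  exact hinj s t (by linarith) (by linarith [ht.2]) (by rw [hs', ht'])

end Pool.Agent.TH555.Detect
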