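import Pool.Agent.TH555.CircleMfd

set_option autoImplicit false

open Set Manifold Topology MeasureTheory

namespace Pool.Agent.TH555.Detect

/-- The unit interval. -/
abbrev I01 := Icc (0 : ℝ) 1

lemma norm_coe_I {t : ℝ} (h0 : 0 ≤ t) (h1 : t ≤ 1) : ‖(t : C2)‖ = t := by
  have h := (AddCircle.norm_coe_eq_abs_iff (p := (2 : ℝ)) (x := t) (by norm_num)).2
    (by rw [abs_of_nonneg h0]; norm_num; exact h1)
  rw [h, abs_of_nonneg h0]

lemma norm_le_one (x : C2) : ‖x‖ ≤ 1 := by
  have := AddCircle.norm_le_half_period (p := (2 : ℝ)) (x := x) (by norm_num)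
  simpa using this

/-- The folding map of the circle onto the interval. -/
noncomputable def fold (x : C2) : I01 := ⟨‖x‖, norm_nonneg x, norm_le_one x⟩

lemma fold_coe (t : I01) : fold ((t : ℝ) : C2) = t := Subtype.ext (norm_coe_I t.2.1 t.2.2)

lemma fold_neg (x : C2) : fold (-x) = fold x := Subtype.ext (norm_neg x)

open Classical in
/-- The double of a self map of the interval. -/
noncomputable def dbl (f : I01 → I01) (x : C2) : C2 :=
  if x = ((fold x : ℝ) : C2) then ((f (fold x) : ℝ) : C2) else -((f (fold x) : ℝ) : C2)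

/-- `f` maps end points to end points. -/
def EP (f : I01 → I01) : Prop := ((f 0 : ℝ) = 0 ∨ (f 0 : ℝ) = 1) ∧ ((f 1 : ℝ) = 0 ∨ (f 1 : ℝ) = 1)

lemma coe_two : ((2 : ℝ) : C2) = 0 := AddCircle.coe_period 2

lemma neg_coe_of {s : ℝ} (hs : s = 0 ∨ s = 1) : -(s : C2) = (s : C2) := by
  rcases hs with rfl | rfl
  · rw [AddCircle.coe_zero, neg_zero]
  · have h : ((1 : ℝ) : C2) + ((1 : ℝ) : C2) = 0 := by
      rw [← AddCircle.coe_add, ← coe_two]
      norm_num
    rw [neg_eq_iff_add_eq_zero, h]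

lemma eq_of_neg_coe {s : ℝ} (h0 : 0 ≤ s) (h1 : s ≤ 1) (h : -(s : C2) = (s : C2)) :
    s = 0 ∨ s = 1 := by
  by_contra hc
  rw [not_or] at hc
  have h2 : 0 < s := lt_of_le_of_ne h0 (Ne.symm hc.1)
  have h3 : s < 1 := lt_of_le_of_ne h1 hc.2
  rw [← AddCircle.coe_neg] at h
  exact coe_ne_of (s := -s) (t := s) (by linarith) (by linarith) h.symm

lemma dbl_coe (f : I01 → I01) (t : I01) : dbl f ((t : ℝ) : C2) = ((f t : ℝ) : C2) := by
  unfold dbl
  rw [fold_coe, if_pos rfl]

lemma dbl_neg {f : I01 → I01} (hf : EP f) (t : I01) :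
    dbl f (-((t : ℝ) : C2)) = -((f t : ℝ) : C2) := by
  unfold dbl
  rw [fold_neg, fold_coe]
  split_ifs with h
  · have ht := eq_of_neg_coe t.2.1 t.2.2 h
    rw [neg_coe_of]
    rcases ht with ht | ht
    · have : t = 0 := Subtype.ext ht
      rw [this]; exact hf.1
    · have : t = 1 := Subtype.ext ht
      rw [this]; exact hf.2
  · rfl

lemma eq_coe_or_neg (x : C2) : x = ((fold x : ℝ) : C2) ∨ x = -((fold x : ℝ) : C2) := by
  obtain ⟨s, hs⟩ : ∃ s : ℝ, s = AddCircle.equivIco (2 : ℝ) (-1) x := ⟨_, rfl⟩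
  have hx : (s : C2) = x := by
    rw [hs]; exact (AddCircle.equivIco (2 : ℝ) (-1)).symm_apply_apply x
  have hm : s ∈ Ico (-1 : ℝ) (-1 + 2) := by
    rw [hs]; exact (AddCircle.equivIco (2 : ℝ) (-1) x).2
  have h1 : -1 ≤ s := hm.1
  have h2 : s ≤ 1 := by linarith [hm.2]
  rcases le_total 0 s with h | h
  · left
    have e : (fold x : ℝ) = s := by
      rw [← hx]; exact norm_coe_I h h2
    rw [e, hx]
  · right
    have e : (fold x : ℝ) = -s := by
      rw [← hx, ← fold_neg, ← AddCircle.coe_neg]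
      exact norm_coe_I (by linarith) (by linarith)
    rw [e, AddCircle.coe_neg, neg_neg, hx]

lemma dbl_id (x : C2) : dbl id x = x := by
  have hid : EP id := ⟨Or.inl rfl, Or.inr rfl⟩
  rcases eq_coe_or_neg x with h | h
  · rw [h, dbl_coe]; rfl
  · rw [h, dbl_neg hid]; rfl

lemma dbl_comp {f g : I01 → I01} (hf : EP f) (hg : EP g) (hfg : EP (f ∘ g)) (x : C2) :
    dbl (f ∘ g) x = dbl f (dbl g x) := by
  rcases eq_coe_or_neg x with h | h
  · rw [h, dbl_coe, dbl_coe, dbl_coe]; rfl
  · rw [h, dbl_neg hfg, dbl_neg hg, dbl_neg hf]; rfl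

lemma dbl_inj {f g : I01 → I01} (h : ∀ x, dbl f x = dbl g x) : f = g := by
  funext t
  have := h ((t : ℝ) : C2)
  rw [dbl_coe, dbl_coe] at this
  have h2 := congrArg fold this
  rwa [fold_coe, fold_coe] at h2

/-- A continuous bijection of the interval preserves the set of end points. -/
lemma ep_of_continuous {f : I01 → I01} (hf : Continuous f) (hb : Function.Bijective f) : EP f := by
  let F : ℝ → ℝ := fun t => (f (projIcc 0 1 zero_le_one t) : ℝ)
  have hF : ∀ t : I01, F t = f t := by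
    intro t
    show (f (projIcc 0 1 zero_le_one (t : ℝ)) : ℝ) = f t
    rw [projIcc_val]
  have hcF : ContinuousOn F (Icc 0 1) :=
    (continuous_subtype_val.comp (hf.comp continuous_projIcc)).continuousOn
  have hiF : InjOn F (Icc 0 1) := by
    intro s hs t ht hst
    have h1 := hF ⟨s, hs⟩
    have h2 := hF ⟨t, ht⟩
    have h3 : f ⟨s, hs⟩ = f ⟨t, ht⟩ := by
      apply Subtype.ext
      rw [← h1, ← h2]
      exact hst
    have := hb.1 h3
    exact congrArg Subtype.val this
  obtain ⟨s0, hs0⟩ := hb.2 0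
  obtain ⟨s1, hs1⟩ := hb.2 1
  have m0 : ((0 : I01) : ℝ) ∈ Icc (0 : ℝ) 1 := (0 : I01).2
  have m1 : ((1 : I01) : ℝ) ∈ Icc (0 : ℝ) 1 := (1 : I01).2
  rcases hcF.strictMonoOn_of_injOn_Icc' zero_le_one hiF with h | h
  · constructor
    · left
      have h1 := h.monotoneOn m0 s0.2 s0.2.1
      rw [hF, hF, hs0] at h1
      exact le_antisymm h1 (f 0).2.1
    · right
      have h1 := h.monotoneOn s1.2 m1 s1.2.2
      rw [hF, hF, hs1] at h1
      exact le_antisymm (f 1).2.2 h1
  · constructor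
    · right
      have h1 := h.antitoneOn m0 s1.2 s1.2.1
      rw [hF, hF, hs1] at h1
      exact le_antisymm (f 0).2.2 h1
    · left
      have h1 := h.antitoneOn s0.2 m1 s0.2.2
      rw [hF, hF, hs0] at h1
      exact le_antisymm h1 (f 1).2.1

/-- If every element of the image of `ρ` preserves the end points, the doubled maps form an action. -/
lemma exists_double {G : Type*} [Group G] (ρ : G →* Equiv.Perm I01) (hinj : Function.Injective ρ)
    (hep : ∀ g, EP (ρ g)) :
    ∃ ρ' : G →* Equiv.Perm C2, Function.Injective ρ' ∧ ∀ g x, ρ' g x = dbl (ρ g) x := by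
  have hcomp : ∀ g h x, dbl (ρ (g * h)) x = dbl (ρ g) (dbl (ρ h) x) := by
    intro g h x
    have e : (ρ (g * h) : I01 → I01) = ρ g ∘ ρ h := by
      rw [map_mul]; rfl
    have h3 := hep (g * h)
    rw [e] at h3 ⊢
    exact dbl_comp (hep g) (hep h) h3 x
  have hone : ∀ x, dbl (ρ 1) x = x := by
    intro x
    have e : (ρ 1 : I01 → I01) = id := by
      rw [map_one]; rfl
    rw [e]
    exact dbl_id x
  let E : G → Equiv.Perm C2 := fun g =>
    { toFun := dbl (ρ g)
      invFun := dbl (ρ g⁻¹)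
      left_inv := by
        intro x
        rw [← hcomp, inv_mul_cancel, hone]
      right_inv := by
        intro x
        rw [← hcomp, mul_inv_cancel, hone] }
  refine ⟨⟨⟨E, ?_⟩, ?_⟩, ?_, ?_⟩
  · ext x
    exact hone x
  · intro g h
    ext x
    exact hcomp g h x
  · intro g h hgh
    apply hinj
    have hgh' : E g = E h := hgh
    have h2 : (ρ g : I01 → I01) = ρ h := by
      apply dbl_inj
      intro x
      exact congrArg (fun e : Equiv.Perm C2 => e x) hgh'
    exact DFunLike.coe_injective h2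
  · intro g x
    rfl

end Pool.Agent.TH555.Detect
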